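import Mathlib

/-!
# WW-Basis : a basis of the span of the `G_m`

`S = span K {G_m : m ∈ s}` is finite-dimensional, `r = finrank`, `g` a basis (`Module.finBasis`) read in `K[X]`; `r ≤ #{m ∈ s : G_m ≠ 0}`
(`S` is also the span of the non-zero `G_m`: `finrank_span_finset_le_card` / `finrank_range_le_card`), `r ≥ 1` because some `G_m ≠ 0`;
`S ≤ degreeLT K D`, so `natDegree (g i) < D` (`D ≥ 1` as a non-zero polynomial of degree `< D` exists; `g i ≠ 0`);
`c m = coordinates of G_m`; `c m ≠ 0` if `G_m ≠ 0`.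
-/

namespace MP_a3a416_nt.WW

open Polynomial Finset

open Classical in
theorem exists_basis {K : Type*} [Field K] (s : Finset ℕ) (G : ℕ → K[X]) (D : ℕ)
    (hD : ∀ m ∈ s, (G m).natDegree < D) (h : ∃ m ∈ s, G m ≠ 0) :
    ∃ r : ℕ, 1 ≤ r ∧ r ≤ (s.filter (fun m => G m ≠ 0)).card ∧
      ∃ (g : Fin r → K[X]) (c : ℕ → Fin r → K), LinearIndependent K g ∧
        (∀ i, (g i).natDegree < D) ∧ (∀ m ∈ s, G m = ∑ i, C (c m i) * g i) ∧
        ∀ m ∈ s, G m ≠ 0 → c m ≠ 0 := by
  set t := s.filter (fun m => G m ≠ 0) with ht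
  set S : Submodule K K[X] := Submodule.span K ((t.image G : Finset K[X]) : Set K[X]) with hS
  have : FiniteDimensional K S := FiniteDimensional.span_finset K (t.image G)
  have hmem : ∀ m ∈ s, G m ∈ S := by
    intro m hm
    by_cases h0 : G m = 0
    · rw [h0]; exact S.zero_mem
    · apply Submodule.subset_span
      rw [Finset.mem_coe, Finset.mem_image]
      exact ⟨m, by rw [ht, Finset.mem_filter]; exact ⟨hm, h0⟩, rfl⟩
  have hSD : S ≤ degreeLT K D := by
    rw [hS, Submodule.span_le]
    intro q hq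
    rw [Finset.mem_coe, Finset.mem_image] at hq
    obtain ⟨m, hm, rfl⟩ := hq
    rw [ht, Finset.mem_filter] at hm
    rw [SetLike.mem_coe, mem_degreeLT]
    exact (natDegree_lt_iff_degree_lt hm.2).1 (hD m hm.1)
  let b := Module.finBasis K S
  refine ⟨Module.finrank K S, ?_, ?_, fun i => (b i : K[X]),
    fun m => if h : G m ∈ S then (b.repr ⟨G m, h⟩ : Fin (Module.finrank K S) → K) else 0, ?_, ?_, ?_, ?_⟩
  · obtain ⟨m, hm, h0⟩ := h
    have : Nontrivial S := by
      refine ⟨⟨⟨G m, hmem m hm⟩, 0, ?_⟩⟩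
      intro h
      exact h0 (congrArg Subtype.val h)
    exact Module.finrank_pos
  · calc Module.finrank K S ≤ (t.image G).card := finrank_span_finset_le_card _
      _ ≤ t.card := Finset.card_image_le
  · have := b.linearIndependent
    exact this.map' S.subtype (Submodule.ker_subtype S)
  · intro i
    have h1 : (b i : K[X]) ∈ degreeLT K D := hSD (b i).2
    have h2 : (b i : K[X]) ≠ 0 := by
      intro h
      exact b.ne_zero i (Subtype.ext h)
    rw [mem_degreeLT] at h1
    exact (natDegree_lt_iff_degree_lt h2).2 h1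
  · intro m hm
    have h1 := b.sum_repr ⟨G m, hmem m hm⟩
    have h2 := congrArg (S.subtype) h1
    rw [map_sum] at h2
    simp only [map_smul, Submodule.subtype_apply] at h2
    change G m = ∑ i, C ((if h : G m ∈ S then
      (b.repr ⟨G m, h⟩ : Fin (Module.finrank K S) → K) else 0) i) * (b i : K[X])
    rw [dif_pos (hmem m hm)]
    refine h2.symm.trans ?_
    refine Finset.sum_congr rfl fun i _ => ?_
    rw [smul_eq_C_mul]
  · intro m hm h0 hc
    change (if h : G m ∈ S then
      (b.repr ⟨G m, h⟩ : Fin (Module.finrank K S) → K) else 0) = 0 at hc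
    rw [dif_pos (hmem m hm)] at hc
    apply h0
    have h1 : b.repr ⟨G m, hmem m hm⟩ = 0 := by
      ext i
      exact congrFun hc i
    have h2 := b.repr.map_eq_zero_iff.1 h1
    exact congrArg Subtype.val h2

end MP_a3a416_nt.WW
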