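import Pool.Agent.Lib.MP_a3a416_nt.WW.Defs

/-!
# WW-Exist : auxiliary polynomials

`G_m = Z_m H_m` for `m ∈ M0`, `Z_m = ∏_{j<N} ∏_{i ∈ cop m} (X - (j+1-i/m))^2` monic of degree
`2 φ(m) N ≤ 2 F N` (`(cop m).card ≤ m ≤ F`), `H_m` of degree `< 2FN` arbitrary (space `degreeLT _ (2FN)`).
The linear map `(M0 → degreeLT (2FN)) → (Lam → degreeLT (4FN))`, `H ↦ (l ↦ ∑_m J_l(m) Z_m H_m)` has a
non-trivial kernel because `#Lam * 4FN < #M0 * 2FN` (`LinearMap.ker_ne_bot_of_finrank_lt`).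
`G_m ≠ 0` for some `m` because `Z_m` is monic.  (`F ≥ 1` because `M0` is non-empty.)
-/

namespace MP_a3a416_nt.WW

open Polynomial Finset

variable {p : ℕ} [Fact p.Prime]

theorem exists_aux (M0 Lam : Finset ℕ) (F N : ℕ) (hF : ∀ m ∈ M0, 1 ≤ m ∧ m ≤ F) (hN : 1 ≤ N)
    (hlam : 2 * Lam.card < M0.card) :
    ∃ G : ℕ → (ZMod p)[X], (∃ m ∈ M0, G m ≠ 0) ∧ (∀ m, m ∉ M0 → G m = 0) ∧
      (∀ m, (G m).natDegree < 4 * F * N) ∧
      (∀ m ∈ M0, ∀ j < N, ∀ i ∈ cop m, (X - C ((j : ZMod p) + 1 - fr p i m)) ^ 2 ∣ G m) ∧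
      (∀ l ∈ Lam, ∑ m ∈ M0, C (Jt p l m) * G m = 0) := by
  classical
  have hM0 : M0.Nonempty := by
    rw [← Finset.card_pos]; omega
  obtain ⟨m0, hm0⟩ := hM0
  have hF1 : 1 ≤ F := (hF m0 hm0).1.trans (hF m0 hm0).2
  have hFN : 1 ≤ F * N := Nat.one_le_iff_ne_zero.2 (Nat.mul_ne_zero (by omega) (by omega))
  set Z : ℕ → (ZMod p)[X] := fun m =>
    ∏ j ∈ range N, ∏ i ∈ cop m, (X - C ((j : ZMod p) + 1 - fr p i m)) ^ 2 with hZ
  have hZm : ∀ m, (Z m).Monic := fun m =>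
    monic_prod_of_monic _ _ (fun j _ => monic_prod_of_monic _ _ (fun i _ => (monic_X_sub_C _).pow 2))
  have hZd : ∀ m ∈ M0, (Z m).natDegree ≤ 2 * F * N := by
    intro m hm
    have h1 : (Z m).natDegree = ∑ _j ∈ range N, ∑ _i ∈ cop m, 2 := by
      simp only [hZ]
      rw [natDegree_prod_of_monic _ _
        (fun j _ => monic_prod_of_monic _ _ (fun i _ => (monic_X_sub_C _).pow 2))]
      refine Finset.sum_congr rfl fun j _ => ?_
      rw [natDegree_prod_of_monic _ _ (fun i _ => (monic_X_sub_C _).pow 2)]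
      refine Finset.sum_congr rfl fun i _ => ?_
      rw [(monic_X_sub_C _).natDegree_pow, natDegree_X_sub_C]
    rw [h1, sum_const, sum_const, card_range, smul_eq_mul, smul_eq_mul]
    have h2 : (cop m).card ≤ F := by
      refine (card_filter_le _ _).trans ?_
      rw [Nat.card_Icc]
      have := (hF m hm).2
      omega
    calc N * ((cop m).card * 2) ≤ N * (F * 2) := by gcongr
      _ = 2 * F * N := by ring
  have hdivZ : ∀ m, ∀ j < N, ∀ i ∈ cop m, (X - C ((j : ZMod p) + 1 - fr p i m)) ^ 2 ∣ Z m := by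
    intro m j hj i hi
    simp only [hZ]
    exact (Finset.dvd_prod_of_mem (fun i => (X - C ((j : ZMod p) + 1 - fr p i m)) ^ 2) hi).trans
      (Finset.dvd_prod_of_mem (fun j : ℕ => ∏ i ∈ cop m, (X - C ((j : ZMod p) + 1 - fr p i m)) ^ 2)
        (Finset.mem_range.2 hj))
  -- products have small degree
  have hprod : ∀ m ∈ M0, ∀ H : (ZMod p)[X], H ∈ degreeLT (ZMod p) (2 * F * N) →
      Z m * H ∈ degreeLT (ZMod p) (4 * F * N) := by
    intro m hm H hH
    rw [mem_degreeLT] at hH ⊢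
    by_cases hH0 : H = 0
    · rw [hH0, mul_zero, degree_zero]
      exact WithBot.bot_lt_coe _
    · have h1 : H.natDegree < 2 * F * N := (natDegree_lt_iff_degree_lt hH0).2 hH
      have h2 : Z m * H ≠ 0 := mul_ne_zero (hZm m).ne_zero hH0
      rw [← natDegree_lt_iff_degree_lt h2]
      have h3 := natDegree_mul_le (p := Z m) (q := H)
      have h4 := hZd m hm
      have h5 : 4 * F * N = 2 * F * N + 2 * F * N := by ring
      omega
  let f : (l : Lam) → ((_ : M0) → degreeLT (ZMod p) (2 * F * N)) →ₗ[ZMod p] (ZMod p)[X] := fun l =>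
    ∑ m : M0, (LinearMap.mulLeft (ZMod p) (C (Jt p l m) * Z m)) ∘ₗ
      (degreeLT (ZMod p) (2 * F * N)).subtype ∘ₗ LinearMap.proj m
  have hf : ∀ l H, f l H = ∑ m : M0, (C (Jt p l m) * Z m) * (H m : (ZMod p)[X]) := by
    intro l H
    simp [f, mul_assoc]
  have hfm : ∀ l H, f l H ∈ degreeLT (ZMod p) (4 * F * N) := by
    intro l H
    rw [hf]
    refine Submodule.sum_mem _ fun m _ => ?_
    have h1 : (C (Jt p l m) * Z m) * (H m : (ZMod p)[X]) =
        Jt p l m • (Z m * (H m : (ZMod p)[X])) := by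
      rw [smul_eq_C_mul, mul_assoc]
    rw [h1]
    exact Submodule.smul_mem _ _ (hprod m m.2 _ (H m).2)
  let g : ((_ : M0) → degreeLT (ZMod p) (2 * F * N)) →ₗ[ZMod p]
      ((_ : Lam) → degreeLT (ZMod p) (4 * F * N)) :=
    LinearMap.pi (fun l => (f l).codRestrict (degreeLT (ZMod p) (4 * F * N)) (hfm l))
  have hfr : ∀ n : ℕ, Module.finrank (ZMod p) (degreeLT (ZMod p) n) = n := by
    intro n
    rw [LinearEquiv.finrank_eq (degreeLTEquiv (ZMod p) n), Module.finrank_fin_fun]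
  have hfin : ∀ n : ℕ, Module.Finite (ZMod p) (degreeLT (ZMod p) n) := fun n =>
    Module.Finite.equiv (degreeLTEquiv (ZMod p) n).symm
  have hker : LinearMap.ker g ≠ ⊥ := by
    apply LinearMap.ker_ne_bot_of_finrank_lt
    rw [Module.finrank_pi_fintype, Module.finrank_pi_fintype]
    simp only [hfr, sum_const, card_univ, Fintype.card_coe, smul_eq_mul]
    calc Lam.card * (4 * F * N) = (2 * Lam.card) * (2 * (F * N)) := by ring
      _ < M0.card * (2 * (F * N)) := Nat.mul_lt_mul_of_pos_right hlam (by omega)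
      _ = M0.card * (2 * F * N) := by ring
  obtain ⟨H, hHk, hH0⟩ := Submodule.exists_mem_ne_zero_of_ne_bot hker
  rw [LinearMap.mem_ker] at hHk
  obtain ⟨m1, hm1⟩ := Function.ne_iff.1 hH0
  refine ⟨fun m => if h : m ∈ M0 then Z m * (H ⟨m, h⟩ : (ZMod p)[X]) else 0, ⟨m1, m1.2, ?_⟩, ?_, ?_, ?_, ?_⟩
  · simp only
    rw [dif_pos m1.2]
    refine mul_ne_zero (hZm _).ne_zero ?_
    intro h
    exact hm1 (Subtype.ext h)
  · intro m hm
    simp only
    rw [dif_neg hm]
  · intro m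
    simp only
    have hpos : 0 < 4 * F * N := by
      have : 4 * F * N = 4 * (F * N) := by ring
      omega
    split_ifs with h
    · by_cases h0 : Z m * (H ⟨m, h⟩ : (ZMod p)[X]) = 0
      · rw [h0, natDegree_zero]; exact hpos
      · rw [natDegree_lt_iff_degree_lt h0, ← mem_degreeLT]
        exact hprod m h _ (H ⟨m, h⟩).2
    · rw [natDegree_zero]; exact hpos
  · intro m hm j hj i hi
    simp only
    rw [dif_pos hm]
    exact (hdivZ m j hj i hi).trans (dvd_mul_right _ _)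
  · intro l hl
    have h1 : f ⟨l, hl⟩ H = 0 := by
      have h2 := congrArg (fun v => ((v ⟨l, hl⟩ : degreeLT (ZMod p) (4 * F * N)) : (ZMod p)[X])) hHk
      simpa [g] using h2
    rw [hf] at h1
    refine Eq.trans ?_ h1
    rw [← Finset.sum_coe_sort M0]
    refine Finset.sum_congr rfl fun m _ => ?_
    simp only
    rw [dif_pos m.2]
    exact (mul_assoc _ _ _).symm

end MP_a3a416_nt.WW
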