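import Mathlib

/-!
# WW-Phi : many `m ≤ F` with `8 φ(m) ≥ F`

Proof used here: `∑_{m ≤ F} ⌊F/m⌋ φ(m) = F(F+1)/2`; each term is at most `F`, at most `F/2` for even `m`, and at most
`⌊F/m⌋ F/8` if `8 φ(m) < F`.  With `⌊F/m⌋ = 1` for `2m > F` and `2` for `2m ≤ F < 3m` this gives
`4F(F+1) ≤ 8F #M0 + F (F + F/2 + 2(F/3) + 4 #{odd m ≤ F/3})`.
-/

namespace MP_a3a416_nt.WW

open Finset

theorem totient_even_le : ∀ n : ℕ, Even n → 2 * n.totient ≤ n := by
  intro n
  induction n using Nat.strong_induction_on with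
  | _ n ih =>
    intro hn
    obtain ⟨k, rfl⟩ := hn.exists_two_nsmul
    rcases Nat.eq_zero_or_pos k with rfl | hk
    · simp
    rw [smul_eq_mul]
    rcases Nat.even_or_odd k with h | h
    · rw [Nat.totient_two_mul_of_even h]
      have := ih k (by rw [smul_eq_mul]; omega) h
      omega
    · rw [Nat.totient_two_mul_of_odd h]
      have := Nat.totient_le k
      omega

theorem sum_div_totient (F : ℕ) :
    2 * ∑ m ∈ Icc 1 F, F / m * m.totient = F * (F + 1) := by
  have h1 : ∑ m ∈ Icc 1 F, F / m * m.totient = ∑ n ∈ Icc 1 F, n := by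
    have h2 : ∀ n ∈ Icc 1 F, n = ∑ m ∈ Icc 1 F, if m ∣ n then m.totient else 0 := by
      intro n hn
      rw [Finset.mem_Icc] at hn
      conv_lhs => rw [← Nat.sum_totient n]
      rw [← Finset.sum_filter]
      apply Finset.sum_congr _ (fun _ _ => rfl)
      ext m
      rw [Nat.mem_divisors, Finset.mem_filter, Finset.mem_Icc]
      constructor
      · rintro ⟨h, h0⟩
        exact ⟨⟨Nat.pos_of_dvd_of_pos h (by omega), (Nat.le_of_dvd (by omega) h).trans hn.2⟩, h⟩
      · rintro ⟨-, h⟩
        exact ⟨h, by omega⟩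
    rw [Finset.sum_congr rfl h2, Finset.sum_comm]
    apply Finset.sum_congr rfl
    intro m _
    rw [← Finset.sum_filter, Finset.sum_const, smul_eq_mul]
    congr 1
    have h3 : Icc 1 F = Ioc 0 F := rfl
    rw [h3, Nat.Ioc_filter_dvd_card_eq_div]
  rw [h1]
  clear h1
  induction F with
  | zero => simp
  | succ F ih =>
    rw [Finset.sum_Icc_succ_top (by omega), mul_add, ih]
    ring

theorem card_odd (K : ℕ) : 2 * ((Icc 1 K).filter (fun m => ¬ Even m)).card ≤ K + 1 := by
  have key : ∀ K, 2 * ((Icc 1 K).filter (fun m => ¬ Even m)).card ≤ K + 1 ∧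
      (Even K → 2 * ((Icc 1 K).filter (fun m => ¬ Even m)).card ≤ K) := by
    intro K
    induction K with
    | zero => simp
    | succ K ih =>
      have h1 : Icc 1 (K + 1) = insert (K + 1) (Icc 1 K) := by
        ext x; simp only [Finset.mem_Icc, Finset.mem_insert]; omega
      rw [h1, Finset.filter_insert]
      by_cases h : Even (K + 1)
      · rw [if_neg (not_not.2 h)]
        exact ⟨by omega, fun _ => ih.1⟩
      · rw [if_pos h, Finset.card_insert_of_notMem (by simp)]
        have h2 : Even K := by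
          rw [Nat.even_add_one, not_not] at h
          exact h
        have := ih.2 h2
        exact ⟨by omega, fun h' => absurd h' h⟩
  exact (key K).1

theorem card_mul_le (F a : ℕ) (ha : 0 < a) : (Icc 1 F).filter (fun m => a * m ≤ F) =
    Icc 1 (F / a) := by
  ext m
  rw [Finset.mem_filter, Finset.mem_Icc, Finset.mem_Icc, Nat.le_div_iff_mul_le ha, mul_comm m a]
  constructor
  · rintro ⟨⟨h1, _⟩, h⟩
    exact ⟨h1, h⟩
  · rintro ⟨h1, h⟩
    exact ⟨⟨h1, (Nat.le_mul_of_pos_left m ha).trans h⟩, h⟩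

theorem term_le (F m : ℕ) (hm : 1 ≤ m) : 8 * (F / m * m.totient) ≤
    (if F ≤ 8 * m.totient then 8 * F else 0) +
      (F + (if 2 * m ≤ F then F else 0) + (if 3 * m ≤ F then 2 * F else 0) +
        (if 3 * m ≤ F then (if ¬ Even m then 4 * F else 0) else 0)) := by
  have h0 : F / m * m.totient ≤ F :=
    (Nat.mul_le_mul_left _ (Nat.totient_le m)).trans (Nat.div_mul_le_self F m)
  by_cases h1 : F ≤ 8 * m.totient
  · rw [if_pos h1]
    omega
  rw [if_neg h1]
  by_cases h2 : 2 * m ≤ F
  · rw [if_pos h2]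
    by_cases h3 : 3 * m ≤ F
    · rw [if_pos h3, if_pos h3]
      by_cases h4 : Even m
      · rw [if_neg (not_not.2 h4)]
        have h5 : 2 * (F / m * m.totient) ≤ F := by
          calc 2 * (F / m * m.totient) = F / m * (2 * m.totient) := by ring
            _ ≤ F / m * m := Nat.mul_le_mul_left _ (totient_even_le m h4)
            _ ≤ F := Nat.div_mul_le_self F m
        omega
      · rw [if_pos h4]
        omega
    · rw [if_neg h3, if_neg h3]
      have h4 : F / m = 2 := by
        rw [Nat.div_eq_iff (by omega)]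
        constructor <;> omega
      rw [h4]
      omega
  · rw [if_neg h2, if_neg (by omega), if_neg (by omega)]
    by_cases h3 : m ≤ F
    · have h4 : F / m = 1 := by
        rw [Nat.div_eq_iff (by omega)]
        constructor <;> omega
      rw [h4]
      omega
    · rw [Nat.div_eq_of_lt (by omega)]
      omega

theorem many_phi (F : ℕ) : F ≤ 8 * ((Icc 1 F).filter (fun m => F ≤ 8 * m.totient)).card := by
  rcases Nat.eq_zero_or_pos F with rfl | hF
  · exact Nat.zero_le _
  have h1 := sum_div_totient F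
  have h2 : ∑ m ∈ Icc 1 F, 8 * (F / m * m.totient) ≤ ∑ m ∈ Icc 1 F,
    ((if F ≤ 8 * m.totient then 8 * F else 0) +
      (F + (if 2 * m ≤ F then F else 0) + (if 3 * m ≤ F then 2 * F else 0) +
        (if 3 * m ≤ F then (if ¬ Even m then 4 * F else 0) else 0))) :=
    Finset.sum_le_sum fun m hm => term_le F m (Finset.mem_Icc.1 hm).1
  rw [← Finset.mul_sum] at h2
  simp only [Finset.sum_add_distrib] at h2
  rw [← Finset.sum_filter, ← Finset.sum_filter, ← Finset.sum_filter, ← Finset.sum_filter,
    card_mul_le F 2 (by norm_num), card_mul_le F 3 (by norm_num), ← Finset.sum_filter] at h2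
  simp only [Finset.sum_const, smul_eq_mul, Nat.card_Icc, Nat.add_sub_cancel] at h2
  have h3 := card_odd (F / 3)
  set a := ((Icc 1 F).filter (fun m => F ≤ 8 * m.totient)).card
  set b := ((Icc 1 (F / 3)).filter (fun m => ¬ Even m)).card
  set s := ∑ m ∈ Icc 1 F, F / m * m.totient
  have h4 : F * (4 * (F + 1)) ≤ F * (8 * a + (F + F / 2 + 2 * (F / 3) + 4 * b)) := by
    calc F * (4 * (F + 1)) = 4 * (F * (F + 1)) := by ring
      _ = 8 * s := by rw [← h1]; ring
      _ ≤ _ := h2
      _ = F * (8 * a + (F + F / 2 + 2 * (F / 3) + 4 * b)) := by ring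
  have h5 := Nat.le_of_mul_le_mul_left h4 hF
  omega

end MP_a3a416_nt.WW
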