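import Pool.Agent.Lib.MP_a3a416_nt.WW.Mob

/-!
# WW-Rows : the rows of `Φ` vanish

`rows`: `taylor n Φ = ∑_m taylor n (G_m) * (E_m + ∑_{j<n} taylor j (R_m))` (`taylor_EM_nat`).
(a) `taylor n (G_m) * taylor j (X + i/m)^(p-2)`, `j < n < N`, `i ∈ cop m`: `(X - (n-1-j+1-i/m))^2 ∣ G_m`
(`hreg` with `j' = n-1-j < N`), so `taylor n (G_m) = (X + (j + i/m))^2 * Q`, and by `sq_mul_pow` the product is
`Q * (X^p + (j+i/m))`; `natDegree Q < D` (if `Q ≠ 0`), so its coefficient at `k` with `D ≤ k < p` is `0`.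
(b) `∑_m taylor n (G_m) * E_m`: coefficient at `k` is `∑_{l ≤ k} ∑_m (taylor n G_m).coeff (k-l) * (J_l(m) * E.coeff l)`
(`coeff_mul`, `coeff_EM`); only `k - l < D` matters; so `e ≤ l < e+L`; for `l ∉ Lam` `E.coeff l = 0`, for `l ∈ Lam` the sum over
`m` is `E.coeff l * (taylor n (∑_m C (J_l m) * G_m)).coeff (k-l) = 0` by `hkill`.

`rows_zero`: `Ψ = hasseDeriv R Φ`.  `(taylor n Ψ).coeff j = (hasseDeriv j (hasseDeriv R Φ)).eval n = choose (j+R) R *
(hasseDeriv (j+R) Φ).eval n = 0` for `j < T` (`taylor_coeff`, `hasseDeriv_comp`), so `(X - n)^T ∣ Ψ` for all `n < N`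
(`X_pow_dvd_iff`, `taylor`), pairwise coprime because `N ≤ p`; so `∏_{n<N} (X-n)^T ∣ Ψ`, degree `N T`.
`coeff_k Ψ = choose (k+R) R * coeff_{k+R} Φ`; `natDegree Φ ≤ D+p-2`; for `p ≤ k+R ≤ p + (D-2)`, `D ≤ R`: `choose (p+u) R ≡ 0 mod p` for
`u < R < p` (`Choose.choose_modEq_choose_mod_mul_choose_div_nat`, Lucas).  Hence `Ψ.natDegree < p-R ≤ NT` or `Ψ = 0`;
so `Ψ = 0`; and for `R ≤ k < p` `choose k R` is a unit mod `p`.
-/

namespace MP_a3a416_nt.WW

open Polynomial Finset

variable {p : ℕ} [Fact p.Prime]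

private theorem natDegree_taylor_lt (a : ZMod p) {f : (ZMod p)[X]} {D : ℕ} (h : f.natDegree < D) :
    (taylor a f).natDegree < D := by
  rw [natDegree_taylor]; exact h

private theorem coeff_of_sq_dvd {A : (ZMod p)[X]} {a : ZMod p} {D k : ℕ} (hA : A.natDegree < D)
    (h : (X + C a) ^ 2 ∣ A) (hk : D ≤ k) (hkp : k < p) :
    (A * (X + C a) ^ (p - 2)).coeff k = 0 := by
  obtain ⟨Q, rfl⟩ := h
  rw [mul_comm ((X + C a) ^ 2) Q, mul_assoc, sq_mul_pow, mul_add, coeff_add, coeff_mul_X_pow', if_neg (by omega),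
    coeff_mul_C, zero_add]
  have hQ : Q.coeff k = 0 := by
    by_cases hQ0 : Q = 0
    · rw [hQ0, coeff_zero]
    · apply coeff_eq_zero_of_natDegree_lt
      have h1 : Q.natDegree ≤ ((X + C a) ^ 2 * Q).natDegree := by
        apply natDegree_le_of_dvd (Dvd.intro_left _ rfl)
        apply mul_ne_zero _ hQ0
        exact pow_ne_zero _ (X_add_C_ne_zero a)
      omega
  rw [hQ, zero_mul]

theorem rows {E : (ZMod p)[X]} (hE : IsE E) {M0 Lam : Finset ℕ} {G : ℕ → (ZMod p)[X]}
    {N D L T e : ℕ} (hM : ∀ m ∈ M0, 1 ≤ m ∧ m < p) (hdeg : ∀ m, (G m).natDegree < D)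
    (hreg : ∀ m ∈ M0, ∀ j < N, ∀ i ∈ cop m, (X - C ((j : ZMod p) + 1 - fr p i m)) ^ 2 ∣ G m)
    (hkill : ∀ l ∈ Lam, ∑ m ∈ M0, C (Jt p l m) * G m = 0)
    (hL : D + T ≤ L) (hR : e + D + T ≤ p)
    (hE0 : ∀ l, e ≤ l → l < e + L → l ∉ Lam → E.coeff l = 0) :
    ∀ n < N, ∀ k, e + D ≤ k → k < e + D + T → (taylor (n : ZMod p) (Ph E M0 G)).coeff k = 0 := by
  intro n hn k hk1 hk2
  have hsplit : taylor (n : ZMod p) (Ph E M0 G) =
      ∑ m ∈ M0, taylor (n : ZMod p) (G m) * EM E m +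
      ∑ m ∈ M0, taylor (n : ZMod p) (G m) * ∑ j ∈ range n, taylor (j : ZMod p) (RM p m) := by
    rw [Ph, map_sum, ← Finset.sum_add_distrib]
    apply Finset.sum_congr rfl
    intro m hm
    rw [taylor_mul, taylor_EM_nat hE (hM m hm).1 (hM m hm).2 n, mul_add]
  rw [hsplit, coeff_add]
  have hb : (∑ m ∈ M0, taylor (n : ZMod p) (G m) *
      ∑ j ∈ range n, taylor (j : ZMod p) (RM p m)).coeff k = 0 := by
    rw [finsetSum_coeff]
    apply Finset.sum_eq_zero
    intro m hm
    rw [Finset.mul_sum, finsetSum_coeff]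
    apply Finset.sum_eq_zero
    intro j hj
    have hjn : j < n := Finset.mem_range.1 hj
    rw [RM, map_sum, Finset.mul_sum, finsetSum_coeff]
    apply Finset.sum_eq_zero
    intro i hi
    have h1 : taylor (j : ZMod p) ((X + C (fr p i m)) ^ (p - 2)) =
        (X + C ((j : ZMod p) + fr p i m)) ^ (p - 2) := by
      rw [taylor_pow, map_add, taylor_X, taylor_C, C_add, add_assoc]
    rw [h1]
    have h2 : (X + C ((j : ZMod p) + fr p i m)) ^ 2 ∣ taylor (n : ZMod p) (G m) := by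
      obtain ⟨Q, hQ⟩ := hreg m hm (n - 1 - j) (by omega) i hi
      rw [hQ, taylor_mul, taylor_pow, map_sub, taylor_X, taylor_C]
      have h3 : (((n - 1 - j : ℕ) : ZMod p)) = (n : ZMod p) - 1 - j := by
        rw [Nat.cast_sub (by omega), Nat.cast_sub (by omega)]
        simp
      have h4 : (X + C (n : ZMod p) - C (((n - 1 - j : ℕ) : ZMod p) + 1 - fr p i m) : (ZMod p)[X]) =
          X + C ((j : ZMod p) + fr p i m) := by
        rw [h3, add_sub_assoc, ← C_sub]
        congr 2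
        ring
      rw [h4]
      exact Dvd.intro _ rfl
    exact coeff_of_sq_dvd (natDegree_taylor_lt _ (hdeg m)) h2 (by omega) (by omega)
  have ha : (∑ m ∈ M0, taylor (n : ZMod p) (G m) * EM E m).coeff k = 0 := by
    rw [finsetSum_coeff]
    simp_rw [coeff_mul, coeff_EM]
    rw [Finset.sum_comm]
    apply Finset.sum_eq_zero
    intro x hx
    have hxk : x.1 + x.2 = k := Finset.HasAntidiagonal.mem_antidiagonal.1 hx
    by_cases hxD : x.1 < D
    · by_cases hl : x.2 ∈ Lam
      · have h5 := congrArg (fun f : (ZMod p)[X] => (taylor (n : ZMod p) f).coeff x.1) (hkill x.2 hl)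
        simp only [map_sum, taylor_mul, taylor_C, finsetSum_coeff, coeff_C_mul, map_zero, coeff_zero] at h5
        have h6 : ∑ m ∈ M0, (taylor (n : ZMod p) (G m)).coeff x.1 * (Jt p x.2 m * E.coeff x.2) =
            E.coeff x.2 * ∑ m ∈ M0, Jt p x.2 m * (taylor (n : ZMod p) (G m)).coeff x.1 := by
          rw [Finset.mul_sum]
          apply Finset.sum_congr rfl
          intro m _
          ring
        rw [h6, h5, mul_zero]
      · apply Finset.sum_eq_zero
        intro m _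
        rw [hE0 x.2 (by omega) (by omega) hl]
        ring
    · apply Finset.sum_eq_zero
      intro m _
      rw [coeff_eq_zero_of_natDegree_lt (lt_of_lt_of_le (natDegree_taylor_lt _ (hdeg m)) (by omega)), zero_mul]
  rw [ha, hb, add_zero]

private theorem choose_cast_ne_zero {k R : ℕ} (hR : R ≤ k) (hk : k < p) :
    ((k.choose R : ℕ) : ZMod p) ≠ 0 := by
  intro h
  rw [ZMod.natCast_eq_zero_iff] at h
  have hp : p.Prime := Fact.out
  have h1 : p ∣ k.factorial := by
    rw [← Nat.choose_mul_factorial_mul_factorial hR, mul_assoc]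
    exact Dvd.dvd.mul_right h _
  exact absurd ((Nat.Prime.dvd_factorial hp).1 h1) (by omega)

private theorem choose_cast_eq_zero {u R : ℕ} (hu : u < R) (hR : R < p) :
    (((p + u).choose R : ℕ) : ZMod p) = 0 := by
  have h := Choose.choose_modEq_choose_mod_mul_choose_div_nat (n := p + u) (k := R) (p := p)
  have h1 : (p + u) % p = u := by
    rw [Nat.add_mod_left, Nat.mod_eq_of_lt (by omega)]
  rw [h1, Nat.mod_eq_of_lt hR, Nat.choose_eq_zero_of_lt hu, zero_mul] at h
  rw [ZMod.natCast_eq_zero_iff]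
  exact (Nat.modEq_zero_iff_dvd).1 h

theorem rows_zero (Φ : (ZMod p)[X]) {D R N T : ℕ} (hD : Φ.natDegree + 1 < D + p) (hDR : D ≤ R)
    (hN : N ≤ p) (hT : R + T ≤ p) (hNT : p ≤ R + N * T)
    (h : ∀ n < N, ∀ k, R ≤ k → k < R + T → (taylor (n : ZMod p) Φ).coeff k = 0) :
    ∀ k, R ≤ k → k < p → Φ.coeff k = 0 := by
  intro k hRk hkp
  have hp : p.Prime := Fact.out
  set Ψ := hasseDeriv R Φ with hΨ
  -- divisibility at each node
  have hdvd : ∀ n < N, (X - C (n : ZMod p)) ^ T ∣ Ψ := by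
    intro n hn
    have h1 : (X : (ZMod p)[X]) ^ T ∣ taylor (n : ZMod p) Ψ := by
      rw [X_pow_dvd_iff]
      intro j hj
      rw [taylor_coeff, hΨ]
      have h2 := congrArg (fun f => (f Φ).eval (n : ZMod p)) (hasseDeriv_comp (R := ZMod p) j R)
      simp only [LinearMap.comp_apply, LinearMap.smul_apply] at h2
      rw [h2, eval_smul, ← taylor_coeff, h n hn (j + R) (by omega) (by omega), smul_zero]
    obtain ⟨Q, hQ⟩ := h1
    refine ⟨taylor (-(n : ZMod p)) Q, ?_⟩
    have h3 := congrArg (taylor (-(n : ZMod p))) hQ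
    rw [taylor_taylor, neg_add_cancel, taylor_zero, taylor_mul, taylor_pow, taylor_X, C_neg, ← sub_eq_add_neg] at h3
    exact h3
  have hprod : ∏ n ∈ range N, (X - C (n : ZMod p)) ^ T ∣ Ψ := by
    apply Finset.prod_dvd_of_coprime
    · intro a ha b hb hab
      have ha' : a < N := by simpa using ha
      have hb' : b < N := by simpa using hb
      apply IsCoprime.pow
      apply isCoprime_X_sub_C_of_isUnit_sub
      apply IsUnit.mk0
      rw [sub_ne_zero]
      intro hc
      rw [ZMod.natCast_eq_natCast_iff'] at hc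
      rw [Nat.mod_eq_of_lt (by omega), Nat.mod_eq_of_lt (by omega)] at hc
      exact hab hc
    · intro n hn
      exact hdvd n (Finset.mem_range.1 hn)
  have hdegP : (∏ n ∈ range N, (X - C (n : ZMod p)) ^ T).natDegree = N * T := by
    rw [natDegree_prod_of_monic]
    · rw [Finset.sum_congr rfl (fun n _ => by rw [natDegree_pow, natDegree_X_sub_C, mul_one]),
        Finset.sum_const, card_range, smul_eq_mul]
    · intro n _
      exact (monic_X_sub_C _).pow T
  have hcoef : ∀ q, p ≤ q + R → Ψ.coeff q = 0 := by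
    intro q hq
    rw [hΨ, hasseDeriv_coeff]
    by_cases hbig : D + p ≤ q + R + 1
    · rw [coeff_eq_zero_of_natDegree_lt (by omega), mul_zero]
    · obtain ⟨u, hu⟩ := Nat.exists_eq_add_of_le hq
      rw [hu, choose_cast_eq_zero (by omega) (by omega), zero_mul]
  have hΨ0 : Ψ = 0 := by
    by_contra hne
    have h4 := natDegree_le_of_dvd hprod hne
    rw [hdegP] at h4
    have h5 : Ψ.coeff Ψ.natDegree ≠ 0 := by
      rw [coeff_natDegree]
      exact leadingCoeff_ne_zero.2 hne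
    exact h5 (hcoef _ (by omega))
  have h6 : Ψ.coeff (k - R) = 0 := by rw [hΨ0, coeff_zero]
  rw [hΨ, hasseDeriv_coeff, Nat.sub_add_cancel hRk] at h6
  rcases mul_eq_zero.1 h6 with h7 | h7
  · exact absurd h7 (choose_cast_ne_zero hRk hkp)
  · exact h7

end MP_a3a416_nt.WW
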