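import Pool.Agent.Lib.MP_a3a416_nt.WW.Defs

/-!
# WW-Cas : the Casorati determinant of independent polynomials of degree `< D ≤ p`

`casorati_ne_zero`: strong induction on `∑_i natDegree (g i)`.
* If two members `g i`, `g k`, `i ≠ k`, have the same degree, replace `g i` by `g i - C (lc_i/lc_k) * g k` (non-zero by independence, smaller
  degree; if the common degree is `0` the new one would be `0`: contradiction to independence); the determinant of `CM` does not change
  (column operation `Matrix.det_updateCol_add_smul_self` or multiply by a transvection), independence is preserved, sum of degrees drops.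
* If the degrees `d_i < p` are distinct: let `Δ = taylor 1 - id` (a linear map).  `taylor j g = (taylor 1)^j g = ∑_{k ≤ j} choose j k • Δ^k g`
  (`(1 + Δ)^j`, `Commute.add_pow`), so `CM g = U * (Δ^j (g i))_{j,i}` with `U j k = choose j k` lower unitriangular (det 1).
  `natDegree g ≤ d → natDegree (Δ g) ≤ d - 1`, `coeff (d-1) (Δ g) = d * coeff d g` and `Δ g = 0` if `d = 0`; by iteration
  `natDegree (Δ^k g) ≤ d - k`, `coeff (d-k) (Δ^k g) = descFactorial d k * coeff d g` for `k ≤ d`, `Δ^k g = 0` for `k > d`.
  Leibniz expansion: the coefficient of `det (Δ^j (g i))` at `∑ d_i - ∑_{j<r} j` is `∏ lc(g_i) * det (descFactorial (d_i) j)`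
  `= ∏ lc * ∏_{i<k} (d_k - d_i)` (`Matrix.det_eval_matrixOfPolynomials_eq_det_vandermonde` with `descPochhammer`), non-zero in `ZMod p`.
`natDegree_det_le`: Leibniz, every product has degree `≤ r (D-1)`.
-/

namespace MP_a3a416_nt.WW

open Polynomial Finset

variable {p : ℕ} [Fact p.Prime]

/-- the difference operator -/
private noncomputable def cDl (p : ℕ) [Fact p.Prime] : (ZMod p)[X] →ₗ[ZMod p] (ZMod p)[X] :=
  taylor (1 : ZMod p) - LinearMap.id

private lemma cDl_apply (h : (ZMod p)[X]) : cDl p h = taylor 1 h - h := rfl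

private lemma taylor_one_coeff (h : (ZMod p)[X]) {e : ℕ} (he : h.natDegree ≤ e) (n : ℕ) :
    (taylor (1 : ZMod p) h).coeff n =
      ∑ m ∈ range (e + 1), ((m.choose n : ℕ) : ZMod p) * h.coeff m := by
  rw [taylor_coeff, hasseDeriv_apply, Polynomial.eval_sum]
  rw [Polynomial.sum_over_range' _ _ (e + 1) (by omega)]
  · apply Finset.sum_congr rfl
    intro m _
    simp
  · intro m
    simp

private lemma cDl_step (h : (ZMod p)[X]) {e : ℕ} (he : h.natDegree ≤ e + 1) :
    (cDl p h).natDegree ≤ e ∧ (cDl p h).coeff e = ((e + 1 : ℕ) : ZMod p) * h.coeff (e + 1) := by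
  constructor
  · rw [Polynomial.natDegree_le_iff_coeff_eq_zero]
    intro n hn
    rw [cDl_apply, Polynomial.coeff_sub, taylor_one_coeff h he]
    rcases Nat.lt_or_ge (e + 1) n with h1 | h1
    · rw [Finset.sum_eq_zero, Polynomial.coeff_eq_zero_of_natDegree_lt (by omega), sub_zero]
      intro m hm
      rw [mem_range] at hm
      rw [Nat.choose_eq_zero_of_lt (by omega), Nat.cast_zero, zero_mul]
    · have h2 : n = e + 1 := by omega
      subst h2
      rw [Finset.sum_range_succ, Finset.sum_eq_zero, Nat.choose_self, Nat.cast_one, one_mul,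
        zero_add, sub_self]
      intro m hm
      rw [mem_range] at hm
      rw [Nat.choose_eq_zero_of_lt hm, Nat.cast_zero, zero_mul]
  · rw [cDl_apply, Polynomial.coeff_sub, taylor_one_coeff h he, Finset.sum_range_succ,
      Finset.sum_range_succ, Finset.sum_eq_zero, Nat.choose_self, Nat.cast_one, one_mul,
      Nat.choose_succ_self_right]
    · ring
    · intro m hm
      rw [mem_range] at hm
      rw [Nat.choose_eq_zero_of_lt hm, Nat.cast_zero, zero_mul]

private lemma cDl_zero (h : (ZMod p)[X]) (he : h.natDegree ≤ 0) : cDl p h = 0 := by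
  rw [Polynomial.eq_C_of_natDegree_le_zero he, cDl_apply, taylor_C, sub_self]

/-- iterated differences -/
private lemma cDl_iter (g : (ZMod p)[X]) {d : ℕ} (hd : g.natDegree ≤ d) (k : ℕ) :
    (k ≤ d → ((cDl p ^ k) g).natDegree ≤ d - k ∧
      ((cDl p ^ k) g).coeff (d - k) = ((d.descFactorial k : ℕ) : ZMod p) * g.coeff d) ∧
    (d < k → (cDl p ^ k) g = 0) := by
  induction k with
  | zero =>
    refine ⟨fun _ => ?_, fun h => absurd h (by omega)⟩
    rw [pow_zero, Module.End.one_apply, Nat.sub_zero, Nat.descFactorial_zero, Nat.cast_one, one_mul]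
    exact ⟨hd, rfl⟩
  | succ k ih =>
    have hstep : (cDl p ^ (k + 1)) g = cDl p ((cDl p ^ k) g) := by
      rw [pow_succ', Module.End.mul_apply]
    refine ⟨fun h => ?_, fun h => ?_⟩
    · obtain ⟨h1, h2⟩ := ih.1 (by omega)
      obtain ⟨e, he⟩ : ∃ e, d - k = e + 1 := ⟨d - k - 1, by omega⟩
      have he' : d - (k + 1) = e := by omega
      rw [he] at h1 h2
      obtain ⟨h3, h4⟩ := cDl_step _ h1
      rw [hstep, he']
      refine ⟨h3, ?_⟩
      rw [h4, h2, Nat.descFactorial_succ, he]
      push_cast
      ring
    · rw [hstep]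
      rcases Nat.lt_or_ge d k with h1 | h1
      · rw [ih.2 h1, map_zero]
      · obtain ⟨h2, -⟩ := ih.1 h1
        exact cDl_zero _ (by omega)

private lemma cDl_top (g : (ZMod p)[X]) {d : ℕ} (hd : g.natDegree ≤ d) (k : ℕ) :
    (X ^ k * (cDl p ^ k) g).natDegree ≤ d ∧
      (X ^ k * (cDl p ^ k) g).coeff d = ((d.descFactorial k : ℕ) : ZMod p) * g.coeff d := by
  rcases Nat.lt_or_ge d k with h | h
  · rw [(cDl_iter g hd k).2 h, mul_zero, Nat.descFactorial_of_lt h, Nat.cast_zero, zero_mul]
    simp
  · obtain ⟨h1, h2⟩ := (cDl_iter g hd k).1 h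
    refine ⟨?_, ?_⟩
    · refine (Polynomial.natDegree_mul_le).trans ?_
      rw [Polynomial.natDegree_X_pow]
      omega
    · have h3 : d = (d - k) + k := by omega
      rw [← h2]
      conv_lhs => rw [h3]
      rw [Polynomial.coeff_X_pow_mul]

private lemma taylor_eq_sum (g : (ZMod p)[X]) (j : ℕ) :
    taylor ((j : ℕ) : ZMod p) g = ∑ k ∈ range (j + 1), (j.choose k) • (cDl p ^ k) g := by
  have h1 : ∀ j : ℕ, (taylor ((j : ℕ) : ZMod p) : (ZMod p)[X] →ₗ[ZMod p] (ZMod p)[X]) =
      (1 + cDl p) ^ j := by
    intro j
    induction j with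
    | zero =>
      ext n
      simp
    | succ j ih =>
      rw [pow_succ, ← ih]
      apply LinearMap.ext
      intro f
      rw [Module.End.mul_apply]
      have h2 : (1 + cDl p) f = taylor 1 f := by
        rw [LinearMap.add_apply, Module.End.one_apply, cDl_apply]
        ring
      rw [h2, taylor_taylor]
      congr 1
      push_cast
      ring_nf
  have h3 := congrArg (fun T : (ZMod p)[X] →ₗ[ZMod p] (ZMod p)[X] => T g) (h1 j)
  beta_reduce at h3
  rw [h3, (Commute.one_left (cDl p)).add_pow]
  rw [LinearMap.sum_apply]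
  rw [← Finset.sum_range_reflect]
  apply Finset.sum_congr rfl
  intro k hk
  rw [mem_range] at hk
  rw [one_pow, one_mul]
  have h4 : j - (j + 1 - 1 - k) = k := by omega
  rw [h4]
  have h5 : j.choose (j + 1 - 1 - k) = j.choose k := by
    rw [Nat.add_sub_cancel]
    exact Nat.choose_symm (by omega)
  rw [h5, ← nsmul_eq_mul', LinearMap.smul_apply]

private lemma coeff_prod_top {ι : Type*} (s : Finset ι) (f : ι → (ZMod p)[X]) (d : ι → ℕ)
    (h : ∀ i ∈ s, (f i).natDegree ≤ d i) :
    (∏ i ∈ s, f i).natDegree ≤ ∑ i ∈ s, d i ∧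
      (∏ i ∈ s, f i).coeff (∑ i ∈ s, d i) = ∏ i ∈ s, (f i).coeff (d i) := by
  classical
  induction s using Finset.induction_on with
  | empty => simp
  | insert a s ha ih =>
    obtain ⟨h1, h2⟩ := ih (fun i hi => h i (Finset.mem_insert_of_mem hi))
    have h3 := h a (Finset.mem_insert_self _ _)
    rw [Finset.prod_insert ha, Finset.sum_insert ha, Finset.prod_insert ha]
    exact ⟨(Polynomial.natDegree_mul_le).trans (add_le_add h3 h1), by
      rw [Polynomial.coeff_mul_add_eq_of_natDegree_le h3 h1, h2]⟩

private lemma cas_distinct {r : ℕ} (g : Fin r → (ZMod p)[X]) (h0 : ∀ i, g i ≠ 0)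
    (hinj : Function.Injective (fun i => (g i).natDegree)) (hD : ∀ i, (g i).natDegree < p) :
    (CM g).det ≠ 0 := by
  classical
  set d : Fin r → ℕ := fun i => (g i).natDegree with hd
  set U : Matrix (Fin r) (Fin r) (ZMod p)[X] :=
    Matrix.of fun j k => ((((j : ℕ).choose (k : ℕ) : ℕ)) : (ZMod p)[X]) with hU
  set Dm : Matrix (Fin r) (Fin r) (ZMod p)[X] :=
    Matrix.of fun k i => (cDl p ^ (k : ℕ)) (g i) with hDm
  have h1 : CM g = U * Dm := by
    ext1 j i
    rw [Matrix.mul_apply]
    simp only [CM, hU, hDm, Matrix.of_apply]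
    rw [taylor_eq_sum]
    have h2 : ∑ k ∈ range ((j : ℕ) + 1), ((j : ℕ).choose k) • (cDl p ^ k) (g i) =
        ∑ k ∈ range r, ((j : ℕ).choose k) • (cDl p ^ k) (g i) := by
      apply Finset.sum_subset
      · intro k hk
        rw [mem_range] at hk ⊢
        have := j.2
        omega
      · intro k _ hk2
        rw [mem_range, not_lt] at hk2
        rw [Nat.choose_eq_zero_of_lt (by omega), zero_smul]
    rw [h2, ← Fin.sum_univ_eq_sum_range (fun k => ((j : ℕ).choose k) • (cDl p ^ k) (g i)) r]
    apply Finset.sum_congr rfl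
    intro k _
    rw [nsmul_eq_mul]
  have hUdet : U.det = 1 := by
    have htri : U.BlockTriangular OrderDual.toDual := by
      intro j k hjk
      have hlt : (j : ℕ) < (k : ℕ) := by
        have : j < k := by simpa using hjk
        exact this
      simp only [hU, Matrix.of_apply]
      rw [Nat.choose_eq_zero_of_lt hlt, Nat.cast_zero]
    rw [Matrix.det_of_isLowerTriangular U htri]
    apply Finset.prod_eq_one
    intro j _
    simp [hU]
  intro hdet
  rw [h1, Matrix.det_mul, hUdet, one_mul] at hdet
  set E : Matrix (Fin r) (Fin r) (ZMod p)[X] :=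
    Matrix.of fun k i => X ^ (k : ℕ) * (cDl p ^ (k : ℕ)) (g i) with hE
  have hEdet : E.det = 0 := by
    have h3 : E = Matrix.of (fun (k i : Fin r) => (X ^ (k : ℕ) : (ZMod p)[X]) * Dm k i) := by
      ext1 k i
      simp [hE, hDm]
    rw [h3, Matrix.det_mul_column, hdet, mul_zero]
  have hc : E.det.coeff (∑ i, d i) =
      (Matrix.of fun (k i : Fin r) => (E k i).coeff (d i)).det := by
    rw [Matrix.det_apply, Matrix.det_apply, Polynomial.finsetSum_coeff]
    apply Finset.sum_congr rfl
    intro σ _
    rw [Polynomial.coeff_smul]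
    congr 1
    exact (coeff_prod_top Finset.univ (fun i => E (σ i) i) d (fun i _ => by
      simp only [hE, Matrix.of_apply]
      exact (cDl_top (g i) le_rfl _).1)).2
  rw [hEdet, Polynomial.coeff_zero] at hc
  have hc2 : (Matrix.of fun (k i : Fin r) => (E k i).coeff (d i)) =
      Matrix.of fun (k i : Fin r) => (g i).leadingCoeff *
        Matrix.transpose (Matrix.of (fun (i k : Fin r) =>
          (descPochhammer (ZMod p) (k : ℕ)).eval ((d i : ℕ) : ZMod p))) k i := by
    ext1 k i
    simp only [hE, Matrix.of_apply, Matrix.transpose_apply]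
    rw [(cDl_top (g i) le_rfl _).2, descPochhammer_eval_eq_descFactorial, mul_comm]
    rfl
  rw [hc2, Matrix.det_mul_row, Matrix.det_transpose,
    ← Matrix.det_eval_matrixOfPolynomials_eq_det_vandermonde (fun i => ((d i : ℕ) : ZMod p))
      (fun k => descPochhammer (ZMod p) (k : ℕ)) (fun k => descPochhammer_natDegree _ _)
      (fun k => monic_descPochhammer _ _)] at hc
  have hl : ∏ i, (g i).leadingCoeff ≠ 0 :=
    Finset.prod_ne_zero_iff.2 (fun i _ => Polynomial.leadingCoeff_ne_zero.2 (h0 i))
  have hv : (Matrix.vandermonde fun i => ((d i : ℕ) : ZMod p)).det ≠ 0 := by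
    rw [Matrix.det_vandermonde_ne_zero_iff]
    intro i k hik
    apply hinj
    have h5 := (ZMod.natCast_eq_natCast_iff' (d i) (d k) p).1 hik
    rwa [Nat.mod_eq_of_lt (hD i), Nat.mod_eq_of_lt (hD k)] at h5
  exact (mul_ne_zero hl hv) hc.symm

theorem casorati_ne_zero {r : ℕ} (g : Fin r → (ZMod p)[X]) (hg : LinearIndependent (ZMod p) g)
    (hD : ∀ i, (g i).natDegree < p) : (CM g).det ≠ 0 := by
  classical
  obtain ⟨s, hs⟩ : ∃ s, s = ∑ i, (g i).natDegree := ⟨_, rfl⟩
  induction s using Nat.strong_induction_on generalizing g with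
  | _ s ih =>
    by_cases hinj : Function.Injective (fun i => (g i).natDegree)
    · exact cas_distinct g (fun i => hg.ne_zero i) hinj hD
    · rw [Function.Injective] at hinj
      push Not at hinj
      obtain ⟨i, k, hik, hne⟩ := hinj
      set a : ZMod p := (g i).leadingCoeff / (g k).leadingCoeff with ha
      have hk0 := hg.ne_zero k
      have hi0 := hg.ne_zero i
      have hlk : (g k).leadingCoeff ≠ 0 := Polynomial.leadingCoeff_ne_zero.2 hk0
      have hli : (g i).leadingCoeff ≠ 0 := Polynomial.leadingCoeff_ne_zero.2 hi0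
      have ha0 : a ≠ 0 := div_ne_zero hli hlk
      set g' : Fin r → (ZMod p)[X] := Function.update g i (g i - C a * g k) with hg'
      have hg'i : g' i = g i - C a * g k := by rw [hg', Function.update_self]
      have hg'j : ∀ j, j ≠ i → g' j = g j := fun j hj => by
        rw [hg', Function.update_of_ne hj]
      have hlin : LinearIndependent (ZMod p) g' := by
        rw [Fintype.linearIndependent_iff] at hg ⊢
        intro c hc
        have h1 : ∑ j, (Function.update c k (c k - a * c i)) j • g j = 0 := by
          rw [← hc]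
          have e1 : ∀ f : Fin r → (ZMod p)[X], ∑ j, f j = f i + (f k + ∑ j ∈ (univ.erase i).erase k, f j) := by
            intro f
            rw [Finset.add_sum_erase (univ.erase i) f (Finset.mem_erase.2 ⟨hne.symm, Finset.mem_univ k⟩),
              Finset.add_sum_erase univ f (Finset.mem_univ i)]
          rw [e1, e1 (fun j => c j • g' j)]
          have e2 : ∑ j ∈ (univ.erase i).erase k, (Function.update c k (c k - a * c i)) j • g j =
              ∑ j ∈ (univ.erase i).erase k, c j • g' j := by
            apply Finset.sum_congr rfl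
            intro j hj
            rw [Finset.mem_erase, Finset.mem_erase] at hj
            rw [Function.update_of_ne hj.1, hg'j j hj.2.1]
          rw [e2, Function.update_self, Function.update_of_ne hne, hg'i, hg'j k hne.symm]
          rw [Polynomial.smul_eq_C_mul, Polynomial.smul_eq_C_mul, Polynomial.smul_eq_C_mul,
            Polynomial.smul_eq_C_mul, map_sub, map_mul]
          ring
        have h2 := hg _ h1
        have h3 : c i = 0 := by
          have := h2 i
          rwa [Function.update_of_ne hne] at this
        intro j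
        by_cases hj : j = k
        · subst hj
          have := h2 j
          rwa [Function.update_self, h3, mul_zero, sub_zero] at this
        · have := h2 j
          rwa [Function.update_of_ne hj] at this
      have hdeg : (g' i).natDegree < (g i).natDegree := by
        apply Polynomial.natDegree_lt_natDegree (hlin.ne_zero i)
        rw [hg'i]
        apply Polynomial.degree_sub_lt_left
        · rw [Polynomial.degree_C_mul ha0, Polynomial.degree_eq_natDegree hi0,
            Polynomial.degree_eq_natDegree hk0, hik]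
        · exact hi0
        · rw [Polynomial.leadingCoeff_mul, Polynomial.leadingCoeff_C, ha,
            div_mul_cancel₀ _ hlk]
      have hdet : (CM g').det = (CM g).det := by
        have h1 : CM g' = (CM g).updateCol i (fun j => CM g j i + (-(C a)) • CM g j k) := by
          ext1 j l
          by_cases hl : l = i
          · subst hl
            rw [Matrix.updateCol_self]
            simp only [CM]
            rw [hg'i, map_sub, taylor_mul, taylor_C, smul_eq_mul]
            ring
          · rw [Matrix.updateCol_ne hl]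
            simp only [CM]
            rw [hg'j l hl]
        rw [h1, Matrix.det_updateCol_add_smul_self _ hne]
      rw [← hdet]
      have hD' : ∀ j, (g' j).natDegree < p := by
        intro j
        by_cases hj : j = i
        · subst hj
          exact hdeg.trans (hD j)
        · rw [hg'j j hj]
          exact hD j
      refine ih (∑ j, (g' j).natDegree) ?_ g' hlin hD' rfl
      rw [hs]
      apply Finset.sum_lt_sum
      · intro j _
        by_cases hj : j = i
        · subst hj
          exact hdeg.le
        · rw [hg'j j hj]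
      · exact ⟨i, Finset.mem_univ i, hdeg⟩

theorem natDegree_det_le {r : ℕ} (g : Fin r → (ZMod p)[X]) {D : ℕ} (hD : ∀ i, (g i).natDegree < D) :
    (CM g).det.natDegree ≤ r * (D - 1) := by
  classical
  rw [Matrix.det_apply]
  apply Polynomial.natDegree_sum_le_of_forall_le
  intro σ _
  refine (Polynomial.natDegree_smul_le _ _).trans ?_
  refine (Polynomial.natDegree_prod_le _ _).trans ?_
  have h1 : ∀ i ∈ (Finset.univ : Finset (Fin r)), (CM g (σ i) i).natDegree ≤ D - 1 := by
    intro i _
    simp only [CM]
    rw [natDegree_taylor]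
    have := hD i
    omega
  refine (Finset.sum_le_card_nsmul _ _ _ h1).trans ?_
  rw [Finset.card_univ, Fintype.card_fin, smul_eq_mul]

end MP_a3a416_nt.WW
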