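import Pool.Agent.Lib.MP_a3a416_nt.WW.Defs

/-!
# WW-Count : counting the zeros of the Casorati determinant

`T = {α : (X-α)^2 ∣ Δ}`, `Δ = (CM g).det`; `2 #T ≤ natDegree Δ` (pairwise coprime squares).
(a) if `β α = β (α+1) = ... = β (α+r-1) = v ≠ 0` then `α ∈ T`.
(b) spacing of the residues `-i/m`.
(c) injection of the triples `(m,i,s)` into `T × Bool`.
-/

namespace MP_a3a416_nt.WW

open Polynomial Finset

variable {p : ℕ} [Fact p.Prime]

theorem mem_cop {m i : ℕ} : i ∈ cop m ↔ (1 ≤ i ∧ i ≤ m) ∧ Nat.Coprime i m := by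
  unfold cop
  rw [Finset.mem_filter, Finset.mem_Icc]

theorem two_card_le {Δ : (ZMod p)[X]} (hΔ : Δ ≠ 0) (T : Finset (ZMod p))
    (hT : ∀ α ∈ T, (X - C α) ^ 2 ∣ Δ) : 2 * T.card ≤ Δ.natDegree := by
  have h1 : ∏ α ∈ T, (X - C α) ^ 2 ∣ Δ := by
    refine Finset.prod_dvd_of_coprime ?_ hT
    intro a _ b _ hab
    refine IsCoprime.pow ?_
    exact pairwise_coprime_X_sub_C Function.injective_id hab
  have h2 := natDegree_le_of_dvd h1 hΔ
  rw [natDegree_prod _ _ (fun α _ => pow_ne_zero 2 (X_sub_C_ne_zero α))] at h2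
  simp only [natDegree_pow, natDegree_X_sub_C, Finset.sum_const, smul_eq_mul] at h2
  omega

theorem dvd_det_of_const {r : ℕ} (g : Fin r → (ZMod p)[X]) (v : Fin r → ZMod p) (hv : v ≠ 0)
    (α : ZMod p) (h : ∀ j : Fin r, (X - C (α + ((j : ℕ) : ZMod p))) ^ 2 ∣ ∑ i, C (v i) * g i) :
    (X - C α) ^ 2 ∣ (CM g).det := by
  have h1 : ∀ j : Fin r, (X - C α) ^ 2 ∣ ∑ i, C (v i) * taylor ((j : ℕ) : ZMod p) (g i) := by
    intro j
    have h2 := map_dvd (taylorAlgHom (((j : ℕ) : ZMod p))) (h j)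
    simp only [taylorAlgHom_apply] at h2
    rw [taylor_pow, map_sub (taylor (((j : ℕ) : ZMod p))), taylor_X, taylor_C, map_sum] at h2
    have h3 : (X + C (((j : ℕ) : ZMod p)) - C (α + ((j : ℕ) : ZMod p)) : (ZMod p)[X]) = X - C α := by
      rw [C_add]
      ring
    rw [h3] at h2
    have h4 : ∑ i, taylor (((j : ℕ) : ZMod p)) (C (v i) * g i)
        = ∑ i, C (v i) * taylor ((j : ℕ) : ZMod p) (g i) := by
      refine Finset.sum_congr rfl fun i _ => ?_
      rw [taylor_mul, taylor_C]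
    rw [h4] at h2
    exact h2
  obtain ⟨i0, hi0⟩ := Function.ne_iff.1 hv
  have h5 : (CM g).adjugate.mulVec ((CM g).mulVec (fun i => C (v i))) i0 = (CM g).det * C (v i0) := by
    rw [Matrix.mulVec_mulVec, Matrix.adjugate_mul, Matrix.smul_mulVec, Matrix.one_mulVec]
    rfl
  have h6 : (X - C α) ^ 2 ∣ (CM g).det * C (v i0) := by
    rw [← h5]
    show (X - C α) ^ 2 ∣ ∑ j, (CM g).adjugate i0 j * (∑ i, CM g j i * C (v i))
    refine Finset.dvd_sum fun j _ => Dvd.dvd.mul_left ?_ _
    have h7 : (∑ i, CM g j i * C (v i)) = ∑ i, C (v i) * taylor ((j : ℕ) : ZMod p) (g i) := by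
      refine Finset.sum_congr rfl fun i _ => ?_
      unfold CM
      ring
    rw [h7]
    exact h1 j
  have h8 : IsUnit (C (v i0) : (ZMod p)[X]) := by
    rw [isUnit_C]
    exact (Ne.isUnit (by simpa using hi0))
  exact (h8.dvd_mul_right).1 h6

theorem F_lt {F : ℕ} (hF2 : F ^ 2 ≤ p) : F < p := by
  have hp : 2 ≤ p := (Fact.out : p.Prime).two_le
  by_contra h
  push Not at h
  nlinarith

theorem cast_ne {F m : ℕ} (hF2 : F ^ 2 ≤ p) (hm : 1 ≤ m) (hmF : m ≤ F) : (m : ZMod p) ≠ 0 := by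
  have hF := F_lt hF2
  rw [Ne, ZMod.natCast_eq_zero_iff]
  intro h
  have := Nat.le_of_dvd (by omega) h
  omega

/-- spacing -/
theorem spacing {F m m' i i' k : ℕ} (hF2 : F ^ 2 ≤ p) (hm : 1 ≤ m) (hmF : m ≤ F) (hm' : 1 ≤ m')
    (hmF' : m' ≤ F) (hi : i ∈ cop m) (hi' : i' ∈ cop m') (hk : 1 ≤ k)
    (h : fr p i m = fr p i' m' + (k : ZMod p)) : p < (k + 1) * m * m' := by
  have h0 := cast_ne hF2 hm hmF
  have h0' := cast_ne hF2 hm' hmF'
  rw [mem_cop] at hi hi'
  unfold fr at h
  have h1 : (i : ZMod p) * m' = i' * m + k * m * m' := by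
    field_simp at h
    linear_combination h
  have h2 : (((k * m * m' + i' * m - i * m' : ℤ)) : ZMod p) = 0 := by
    push_cast
    linear_combination -h1
  rw [ZMod.intCast_zmod_eq_zero_iff_dvd] at h2
  by_contra hcon
  push Not at hcon
  have hpos : (0 : ℤ) < k * m * m' + i' * m - i * m' := by
    have e1 : (i : ℤ) * m' ≤ m * m' := by
      have : i ≤ m := hi.1.2
      exact_mod_cast Nat.mul_le_mul_right m' this
    have e2 : (1 : ℤ) * m ≤ i' * m := by
      have : 1 ≤ i' := hi'.1.1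
      exact_mod_cast Nat.mul_le_mul_right m this
    have e3 : (1 : ℤ) * (m * m') ≤ k * (m * m') := by
      exact_mod_cast Nat.mul_le_mul_right (m * m') hk
    have e4 : (1 : ℤ) ≤ m := by exact_mod_cast hm
    nlinarith
  have hlt : (k * m * m' + i' * m - i * m' : ℤ) < p := by
    have e1 : (1 : ℤ) * m' ≤ i * m' := by
      have : 1 ≤ i := hi.1.1
      exact_mod_cast Nat.mul_le_mul_right m' this
    have e2 : (i' : ℤ) * m ≤ m' * m := by
      have : i' ≤ m' := hi'.1.2
      exact_mod_cast Nat.mul_le_mul_right m this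
    have e4 : (1 : ℤ) ≤ m' := by exact_mod_cast hm'
    have e5 : ((k + 1) * m * m' : ℤ) ≤ p := by exact_mod_cast hcon
    nlinarith
  have := Int.le_of_dvd hpos h2
  omega

theorem fr_inj {F m m' i i' : ℕ} (hF2 : F ^ 2 ≤ p) (hm : 1 ≤ m) (hmF : m ≤ F) (hm' : 1 ≤ m')
    (hmF' : m' ≤ F) (hi : i ∈ cop m) (hi' : i' ∈ cop m')
    (h : fr p i m = fr p i' m') : m = m' ∧ i = i' := by
  have h0 := cast_ne hF2 hm hmF
  have h0' := cast_ne hF2 hm' hmF'
  rw [mem_cop] at hi hi'
  unfold fr at h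
  have h1 : (i : ZMod p) * m' = i' * m := by
    field_simp at h
    linear_combination h
  have h2 : (((i' * m - i * m' : ℤ)) : ZMod p) = 0 := by
    push_cast
    linear_combination -h1
  rw [ZMod.intCast_zmod_eq_zero_iff_dvd] at h2
  have hmm : (m * m' : ℤ) ≤ p := by
    have : m * m' ≤ F ^ 2 := by
      rw [sq]
      exact Nat.mul_le_mul hmF hmF'
    exact_mod_cast this.trans hF2
  have e1 : (i : ℤ) * m' ≤ m * m' := by
    exact_mod_cast Nat.mul_le_mul_right m' hi.1.2
  have e2 : (1 : ℤ) * m ≤ i' * m := by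
    exact_mod_cast Nat.mul_le_mul_right m hi'.1.1
  have e3 : (1 : ℤ) * m' ≤ i * m' := by
    exact_mod_cast Nat.mul_le_mul_right m' hi.1.1
  have e4 : (i' : ℤ) * m ≤ m' * m := by
    exact_mod_cast Nat.mul_le_mul_right m hi'.1.2
  have e5 : (1 : ℤ) ≤ m := by exact_mod_cast hm
  have e6 : (1 : ℤ) ≤ m' := by exact_mod_cast hm'
  have h3 : (i' * m - i * m' : ℤ) = 0 := by
    refine Int.eq_zero_of_abs_lt_dvd h2 ?_
    rw [abs_lt]
    constructor <;> nlinarith
  have h4 : i' * m = i * m' := by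
    have : (i' * m : ℤ) = i * m' := by linarith
    exact_mod_cast this
  have h5 : m ∣ m' := by
    have : m ∣ i * m' := ⟨i', by rw [← h4]; ring⟩
    exact (Nat.Coprime.symm hi.2).dvd_of_dvd_mul_left this
  have h6 : m' ∣ m := by
    have : m' ∣ i' * m := ⟨i, by rw [h4]; ring⟩
    exact (Nat.Coprime.symm hi'.2).dvd_of_dvd_mul_left this
  have h7 : m = m' := Nat.dvd_antisymm h5 h6
  refine ⟨h7, ?_⟩
  rw [← h7] at h4
  exact (Nat.eq_of_mul_eq_mul_right (by omega) h4).symm

theorem jc_zero_of {m : ℕ} {α : ZMod p} (h : ∀ i ∈ cop m, α ≠ - fr p i m) : jc p m α = 0 := by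
  classical
  unfold jc
  rw [Finset.card_eq_zero, Finset.filter_eq_empty_iff]
  intro i hi
  exact h i hi

/-- no residue at distance `k` above -/
theorem jc_up {F m m' i k : ℕ} (hF2 : F ^ 2 ≤ p) (hm : 1 ≤ m) (hmF : m ≤ F) (hm' : 1 ≤ m')
    (hmF' : m' ≤ F) (hi : i ∈ cop m) (hk : 1 ≤ k) (hkm : (k + 1) * (m * F) ≤ p) :
    jc p m' (- fr p i m + (k : ZMod p)) = 0 := by
  refine jc_zero_of fun i' hi' h => ?_
  have h1 := spacing hF2 hm hmF hm' hmF' hi hi' hk (by linear_combination -h)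
  have h2 : (k + 1) * m * m' ≤ (k + 1) * (m * F) := by
    rw [mul_assoc]
    exact Nat.mul_le_mul_left _ (Nat.mul_le_mul_left _ hmF')
  omega

theorem jc_down {F m m' i k : ℕ} (hF2 : F ^ 2 ≤ p) (hm : 1 ≤ m) (hmF : m ≤ F) (hm' : 1 ≤ m')
    (hmF' : m' ≤ F) (hi : i ∈ cop m) (hk : 1 ≤ k) (hkm : (k + 1) * (m * F) ≤ p) :
    jc p m' (- fr p i m - (k : ZMod p)) = 0 := by
  refine jc_zero_of fun i' hi' h => ?_
  have h1 := spacing hF2 hm' hmF' hm hmF hi' hi hk (by linear_combination h)
  have h2 : (k + 1) * m' * m ≤ (k + 1) * (m * F) := by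
    rw [mul_assoc, mul_comm m' m]
    exact Nat.mul_le_mul_left _ (Nat.mul_le_mul_left _ hmF')
  omega

theorem jc_self {F m m' i : ℕ} (hF2 : F ^ 2 ≤ p) (hm : 1 ≤ m) (hmF : m ≤ F) (hm' : 1 ≤ m')
    (hmF' : m' ≤ F) (hi : i ∈ cop m) : jc p m' (- fr p i m) = if m' = m then 1 else 0 := by
  classical
  split_ifs with h
  · subst h
    unfold jc
    rw [Finset.card_eq_one]
    refine ⟨i, ?_⟩
    ext i'
    rw [Finset.mem_filter, Finset.mem_singleton]
    constructor
    · rintro ⟨h3, h4⟩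
      exact ((fr_inj hF2 hm hmF hm hmF hi h3 (by linear_combination -h4)).2).symm
    · rintro rfl
      exact ⟨hi, rfl⟩
  · refine jc_zero_of fun i' hi' h' => ?_
    exact h ((fr_inj hF2 hm hmF hm' hmF' hi hi' (by linear_combination -h')).1).symm

theorem count {F r : ℕ} (M : Finset ℕ) (hM : ∀ m ∈ M, 1 ≤ m ∧ m ≤ F) (hF2 : F ^ 2 ≤ p)
    (hr : 1 ≤ r) (g : Fin r → (ZMod p)[X]) (hdet : (CM g).det ≠ 0) (c : ℕ → Fin r → ZMod p)
    (hc : ∀ m ∈ M, c m ≠ 0) (β : ZMod p → Fin r → ZMod p)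
    (h1 : ∀ α i, β (α + 1) i - β α i = ∑ m ∈ M, c m i * (jc p m α : ZMod p))
    (h2 : ∀ α, (X - C α) ^ 2 ∣ ∑ i, C (β α i) * g i) :
    ∑ m ∈ M, (cop m).card * (p / (m * F) + 1 - r) ≤ (CM g).det.natDegree := by
  classical
  set T : Finset (ZMod p) := Finset.univ.filter (fun α => (X - C α) ^ 2 ∣ (CM g).det) with hT
  have hT2 : 2 * T.card ≤ (CM g).det.natDegree :=
    two_card_le hdet T (fun α hα => (Finset.mem_filter.1 hα).2)
  have hmemT : ∀ (α : ZMod p) (v : Fin r → ZMod p), v ≠ 0 →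
      (∀ j : ℕ, j < r → β (α + (j : ZMod p)) = v) → α ∈ T := by
    intro α v hv hj
    rw [hT, Finset.mem_filter]
    refine ⟨Finset.mem_univ _, ?_⟩
    refine dvd_det_of_const g v hv α fun j => ?_
    have := h2 (α + ((j : ℕ) : ZMod p))
    rw [hj j j.2] at this
    exact this
  -- constancy above and below
  have hup : ∀ m ∈ M, ∀ i ∈ cop m, ∀ s : ℕ, s + 1 ≤ p / (m * F) →
      β (- fr p i m + 1 + (s : ZMod p)) = β (- fr p i m + 1) := by
    intro m hm i hi s
    induction s with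
    | zero => intro _; simp
    | succ s ih =>
      intro hs
      rw [← ih (by omega)]
      funext a
      have h3 := h1 (- fr p i m + 1 + (s : ZMod p)) a
      have h4 : ∑ m' ∈ M, c m' a * (jc p m' (- fr p i m + 1 + (s : ZMod p)) : ZMod p) = 0 := by
        refine Finset.sum_eq_zero fun m' hm' => ?_
        have h5 := jc_up (k := s + 1) hF2 (hM m hm).1 (hM m hm).2 (hM m' hm').1 (hM m' hm').2 hi (by omega)
          ((Nat.le_div_iff_mul_le (Nat.mul_pos (hM m hm).1 ((hM m hm).1.trans (hM m hm).2))).1 hs)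
        have h6 : (- fr p i m + 1 + (s : ZMod p)) = - fr p i m + ((s + 1 : ℕ) : ZMod p) := by
          push_cast; ring
        rw [h6, h5]
        simp
      rw [h4] at h3
      have h7 : (- fr p i m + 1 + ((s + 1 : ℕ) : ZMod p)) = - fr p i m + 1 + (s : ZMod p) + 1 := by
        push_cast; ring
      rw [h7]
      exact sub_eq_zero.1 h3
  have hdown : ∀ m ∈ M, ∀ i ∈ cop m, ∀ s : ℕ, s + 1 ≤ p / (m * F) →
      β (- fr p i m - (s : ZMod p)) = β (- fr p i m) := by
    intro m hm i hi s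
    induction s with
    | zero => intro _; simp
    | succ s ih =>
      intro hs
      rw [← ih (by omega)]
      funext a
      have h3 := h1 (- fr p i m - ((s + 1 : ℕ) : ZMod p)) a
      have h4 : ∑ m' ∈ M, c m' a * (jc p m' (- fr p i m - ((s + 1 : ℕ) : ZMod p)) : ZMod p) = 0 := by
        refine Finset.sum_eq_zero fun m' hm' => ?_
        have h5 := jc_down (k := s + 1) hF2 (hM m hm).1 (hM m hm).2 (hM m' hm').1 (hM m' hm').2 hi (by omega)
          ((Nat.le_div_iff_mul_le (Nat.mul_pos (hM m hm).1 ((hM m hm).1.trans (hM m hm).2))).1 hs)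
        rw [h5]
        simp
      rw [h4] at h3
      have h7 : (- fr p i m - ((s + 1 : ℕ) : ZMod p) + 1) = - fr p i m - (s : ZMod p) := by
        push_cast; ring
      rw [h7] at h3
      exact (sub_eq_zero.1 h3).symm
  have hne : ∀ m ∈ M, ∀ i ∈ cop m, β (- fr p i m + 1) ≠ β (- fr p i m) := by
    intro m hm i hi heq
    apply hc m hm
    funext a
    have h3 := h1 (- fr p i m) a
    rw [heq, sub_self] at h3
    have h4 : ∑ m' ∈ M, c m' a * (jc p m' (- fr p i m) : ZMod p) = c m a := by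
      rw [Finset.sum_eq_single m]
      · rw [jc_self hF2 (hM m hm).1 (hM m hm).2 (hM m hm).1 (hM m hm).2 hi, if_pos rfl]
        simp
      · intro m' hm' hne
        rw [jc_self hF2 (hM m hm).1 (hM m hm).2 (hM m' hm').1 (hM m' hm').2 hi, if_neg hne]
        simp
      · intro h
        exact absurd hm h
    rw [h4] at h3
    simpa using h3.symm
  -- the map
  set S : Finset (Σ _ : ℕ, ℕ × ℕ) := M.sigma (fun m => cop m ×ˢ range (p / (m * F) + 1 - r)) with hS
  have hcard : S.card = ∑ m ∈ M, (cop m).card * (p / (m * F) + 1 - r) := by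
    rw [hS, Finset.card_sigma]
    refine Finset.sum_congr rfl fun m _ => ?_
    rw [Finset.card_product, Finset.card_range]
  set φ : (Σ _ : ℕ, ℕ × ℕ) → ZMod p × Bool := fun x =>
    if β (- fr p x.2.1 x.1 + 1) ≠ 0 then (- fr p x.2.1 x.1 + 1 + (x.2.2 : ZMod p), true)
    else (- fr p x.2.1 x.1 - (x.2.2 : ZMod p) - ((r - 1 : ℕ) : ZMod p), false) with hφ
  have hmaps : ∀ x ∈ S, φ x ∈ T ×ˢ (Finset.univ : Finset Bool) := by
    rintro ⟨m, i, s⟩ hx
    rw [hS, Finset.mem_sigma, Finset.mem_product, Finset.mem_range] at hx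
    obtain ⟨hm, hi, hs⟩ := hx
    simp only at hm hi hs
    rw [Finset.mem_product]
    refine ⟨?_, Finset.mem_univ _⟩
    simp only [hφ]
    split_ifs with h0
    · refine hmemT _ _ h0 fun j hj => ?_
      have := hup m hm i hi (s + j) (by omega)
      push_cast at this
      rw [← this]
      congr 1
      ring
    · have h0' : β (- fr p i m) ≠ 0 := by
        intro h
        apply hne m hm i hi
        rw [h]
        exact not_not.1 h0
      refine hmemT _ _ h0' fun j hj => ?_
      have := hdown m hm i hi (s + (r - 1 - j)) (by omega)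
      rw [← this]
      congr 1
      have hj2 : ((r - 1 : ℕ) : ZMod p) = ((r - 1 - j : ℕ) : ZMod p) + (j : ZMod p) := by
        rw [← Nat.cast_add]
        congr 1
        omega
      push_cast [hj2]
      ring
  have hinj : Set.InjOn φ S := by
    rintro ⟨m, i, s⟩ hx ⟨m', i', s'⟩ hx' heq
    rw [hS, Finset.mem_coe, Finset.mem_sigma, Finset.mem_product, Finset.mem_range] at hx hx'
    obtain ⟨hm, hi, hs⟩ := hx
    obtain ⟨hm', hi', hs'⟩ := hx'
    simp only at hm hi hs hm' hi' hs'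
    -- general fact: the two fractions differ by `s' - s`
    have key : ∀ (m m' i i' s s' : ℕ), m ∈ M → m' ∈ M → i ∈ cop m → i' ∈ cop m' →
        s < p / (m * F) + 1 - r → s' < p / (m' * F) + 1 - r →
        (fr p i m = fr p i' m' + ((s' : ZMod p) - s) ∨ fr p i' m' = fr p i m + ((s' : ZMod p) - s)) →
        s ≤ s' → (m = m' ∧ i = i') ∧ s = s' := by
      intro m m' i i' s s' hm hm' hi hi' hs hs' hd hle
      have hmF' : 0 < m' * F := Nat.mul_pos (hM m' hm').1 ((hM m' hm').1.trans (hM m' hm').2)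
      by_cases hss : s = s'
      · subst hss
        refine ⟨?_, rfl⟩
        rcases hd with hd | hd
        · exact fr_inj hF2 (hM m hm).1 (hM m hm).2 (hM m' hm').1 (hM m' hm').2 hi hi'
            (by rw [hd]; ring)
        · exact fr_inj hF2 (hM m hm).1 (hM m hm).2 (hM m' hm').1 (hM m' hm').2 hi hi'
            (by rw [hd]; ring)
      · exfalso
        have hk1 : 1 ≤ s' - s := by omega
        have hcast : ((s' - s : ℕ) : ZMod p) = (s' : ZMod p) - s := by
          rw [Nat.cast_sub hle]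
        have hle2 : (s' - s + 1) * (m' * F) ≤ p := by
          have h5 : s' - s + 1 ≤ p / (m' * F) := by omega
          exact (Nat.le_div_iff_mul_le hmF').1 h5
        have hmm : (s' - s + 1) * (m' * m) ≤ (s' - s + 1) * (m' * F) :=
          Nat.mul_le_mul_left _ (Nat.mul_le_mul_left _ (hM m hm).2)
        rcases hd with hd | hd
        · have := spacing hF2 (hM m hm).1 (hM m hm).2 (hM m' hm').1 (hM m' hm').2 hi hi' hk1
            (by rw [hcast]; exact hd)
          have e : (s' - s + 1) * m * m' = (s' - s + 1) * (m' * m) := by ring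
          omega
        · have := spacing hF2 (hM m' hm').1 (hM m' hm').2 (hM m hm).1 (hM m hm).2 hi' hi hk1
            (by rw [hcast]; exact hd)
          have e : (s' - s + 1) * m' * m = (s' - s + 1) * (m' * m) := by ring
          omega
    have hfin : (m = m' ∧ i = i') ∧ s = s' := by
      simp only [hφ] at heq
      split_ifs at heq with ha hb hb
      · have he := (Prod.mk.inj heq).1
        rcases le_total s s' with hle | hle
        · exact key m m' i i' s s' hm hm' hi hi' hs hs' (Or.inr (by linear_combination he)) hle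
        · have := key m' m i' i s' s hm' hm hi' hi hs' hs (Or.inr (by linear_combination -he)) hle
          exact ⟨⟨this.1.1.symm, this.1.2.symm⟩, this.2.symm⟩
      · exact absurd (Prod.mk.inj heq).2 (by simp)
      · exact absurd (Prod.mk.inj heq).2 (by simp)
      · have he := (Prod.mk.inj heq).1
        rcases le_total s s' with hle | hle
        · exact key m m' i i' s s' hm hm' hi hi' hs hs' (Or.inl (by linear_combination -he)) hle
        · have := key m' m i' i s' s hm' hm hi' hi hs' hs (Or.inl (by linear_combination he)) hle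
          exact ⟨⟨this.1.1.symm, this.1.2.symm⟩, this.2.symm⟩
    obtain ⟨⟨rfl, rfl⟩, rfl⟩ := hfin
    rfl
  have h3 := Finset.card_le_card_of_injOn φ hmaps hinj
  rw [hcard, Finset.card_product, Finset.card_univ, Fintype.card_bool] at h3
  omega

end MP_a3a416_nt.WW
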