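import Pool.Agent.Lib.MP_a3a416_nt.WW.Mob

/-!
# WW-Cramer : from `Φ = A + X^p B` to rational functions

`TS u v P`: `P = U + X^p V`, `deg U < u`, `deg V < v`.
`Et i = ∑_{m ∈ M} C (c m i) * EM E m`; `taylor 1 (Et i) = Et i + ρ_i`, `ρ_i = ∑_m C (c m i) * RM p m`.
`Q = ∏_{j<r} ∏_{m ∈ M} ∏_{i' ∈ cop m} (X + j + i'/m)^2`, `d = Q Δ`, `d Et_i = U_i + X^p V_i`.
-/

namespace MP_a3a416_nt.WW

open Polynomial Finset

variable {p : ℕ} [Fact p.Prime]

theorem deg_mul_lt {H U : (ZMod p)[X]} {u h : ℕ} (hH : H.natDegree ≤ h) (hU : U.degree < (u : ℕ)) :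
    (H * U).degree < ((u + h : ℕ) : WithBot ℕ) := by
  by_cases hU0 : U = 0
  · rw [hU0, mul_zero, degree_zero]
    exact WithBot.bot_lt_coe _
  by_cases hH0 : H = 0
  · rw [hH0, zero_mul, degree_zero]
    exact WithBot.bot_lt_coe _
  rw [degree_eq_natDegree hU0, Nat.cast_lt] at hU
  rw [degree_mul, degree_eq_natDegree hU0, degree_eq_natDegree hH0, ← Nat.cast_add, Nat.cast_lt]
  omega

theorem deg_mono {U : (ZMod p)[X]} {u v : ℕ} (hU : U.degree < (u : ℕ)) (h : u ≤ v) :
    U.degree < (v : ℕ) :=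
  lt_of_lt_of_le hU (by exact_mod_cast h)

theorem deg_add_lt {U V : (ZMod p)[X]} {u : ℕ} (hU : U.degree < (u : ℕ)) (hV : V.degree < (u : ℕ)) :
    (U + V).degree < (u : ℕ) := (degree_add_le _ _).trans_lt (max_lt hU hV)

theorem deg_sub_lt {U V : (ZMod p)[X]} {u : ℕ} (hU : U.degree < (u : ℕ)) (hV : V.degree < (u : ℕ)) :
    (U - V).degree < (u : ℕ) := (degree_sub_le _ _).trans_lt (max_lt hU hV)

theorem deg_sum_lt {ι : Type*} (s : Finset ι) (f : ι → (ZMod p)[X]) {u : ℕ}
    (h : ∀ i ∈ s, (f i).degree < (u : ℕ)) : (∑ i ∈ s, f i).degree < (u : ℕ) := by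
  classical
  induction s using Finset.induction_on with
  | empty =>
    rw [Finset.sum_empty, degree_zero]
    exact WithBot.bot_lt_coe _
  | insert a s ha ih =>
    rw [Finset.sum_insert ha]
    exact deg_add_lt (h a (Finset.mem_insert_self a s)) (ih fun i hi => h i (Finset.mem_insert_of_mem hi))

/-- `P = U + X^p V`, `deg U < u`, `deg V < v` -/
def TS (u v : ℕ) (P : (ZMod p)[X]) : Prop :=
  ∃ U V : (ZMod p)[X], U.degree < (u : ℕ) ∧ V.degree < (v : ℕ) ∧ P = U + X ^ p * V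

theorem TS.mono {u v u' v' : ℕ} {P : (ZMod p)[X]} (h : TS u v P) (hu : u ≤ u') (hv : v ≤ v') :
    TS u' v' P := by
  obtain ⟨U, V, h1, h2, h3⟩ := h
  exact ⟨U, V, deg_mono h1 hu, deg_mono h2 hv, h3⟩

theorem TS.zero (u v : ℕ) : TS u v (0 : (ZMod p)[X]) :=
  ⟨0, 0, by rw [degree_zero]; exact WithBot.bot_lt_coe _, by rw [degree_zero]; exact WithBot.bot_lt_coe _,
    by simp⟩

theorem TS.add {u v : ℕ} {P P' : (ZMod p)[X]} (h : TS u v P) (h' : TS u v P') : TS u v (P + P') := by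
  obtain ⟨U, V, h1, h2, h3⟩ := h
  obtain ⟨U', V', h1', h2', h3'⟩ := h'
  exact ⟨U + U', V + V', deg_add_lt h1 h1', deg_add_lt h2 h2', by rw [h3, h3']; ring⟩

theorem TS.sub {u v : ℕ} {P P' : (ZMod p)[X]} (h : TS u v P) (h' : TS u v P') : TS u v (P - P') := by
  obtain ⟨U, V, h1, h2, h3⟩ := h
  obtain ⟨U', V', h1', h2', h3'⟩ := h'
  exact ⟨U - U', V - V', deg_sub_lt h1 h1', deg_sub_lt h2 h2', by rw [h3, h3']; ring⟩

theorem TS.sum {u v : ℕ} {ι : Type*} (s : Finset ι) (f : ι → (ZMod p)[X])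
    (h : ∀ i ∈ s, TS u v (f i)) : TS u v (∑ i ∈ s, f i) := by
  classical
  induction s using Finset.induction_on with
  | empty =>
    rw [Finset.sum_empty]
    exact TS.zero u v
  | insert a s ha ih =>
    rw [Finset.sum_insert ha]
    exact TS.add (h a (Finset.mem_insert_self a s)) (ih fun i hi => h i (Finset.mem_insert_of_mem hi))

theorem TS.mul {u v h : ℕ} {P : (ZMod p)[X]} (hP : TS u v P) (H : (ZMod p)[X]) (hH : H.natDegree ≤ h) :
    TS (u + h) (v + h) (H * P) := by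
  obtain ⟨U, V, h1, h2, h3⟩ := hP
  exact ⟨H * U, H * V, deg_mul_lt hH h1, deg_mul_lt hH h2, by rw [h3]; ring⟩

theorem taylor_X_pow_p (a : ZMod p) : taylor a (X ^ p : (ZMod p)[X]) = X ^ p + C a := by
  rw [taylor_pow, taylor_X, add_pow_char, ← C_pow, ZMod.pow_card]

theorem deg_taylor (a : ZMod p) (U : (ZMod p)[X]) : (taylor a U).degree = U.degree := by
  by_cases h : U = 0
  · rw [h, map_zero]
  · have h' : taylor a U ≠ 0 := fun h0 => h (taylor_injective a (by rw [h0, map_zero]))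
    rw [degree_eq_natDegree h, degree_eq_natDegree h', natDegree_taylor]

theorem TS.taylor {u v : ℕ} {P : (ZMod p)[X]} (hP : TS u v P) (huv : v ≤ u) (a : ZMod p) :
    TS u v (taylor a P) := by
  obtain ⟨U, V, h1, h2, h3⟩ := hP
  refine ⟨Polynomial.taylor a U + C a * Polynomial.taylor a V, Polynomial.taylor a V, ?_, ?_, ?_⟩
  · refine deg_add_lt (by rw [deg_taylor]; exact h1) ?_
    have := deg_mul_lt (H := C a) (h := 0) (by rw [natDegree_C]) (by rw [deg_taylor a V]; exact h2)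
    exact deg_mono this huv
  · rw [deg_taylor]; exact h2
  · rw [h3, map_add, taylor_mul, taylor_X_pow_p]
    ring

theorem split_unique {U V U' V' : (ZMod p)[X]} (hU : U.degree < (p : ℕ)) (hU' : U'.degree < (p : ℕ))
    (h : U + X ^ p * V = U' + X ^ p * V') : V = V' := by
  have h1 : X ^ p * (V - V') = U' - U := by linear_combination h
  have h2 : (U' - U).degree < (p : ℕ) := deg_sub_lt hU' hU
  rw [← h1] at h2
  by_contra hne
  have h3 : V - V' ≠ 0 := sub_ne_zero.2 hne
  rw [degree_mul, degree_X_pow, degree_eq_natDegree h3, ← Nat.cast_add, Nat.cast_lt] at h2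
  omega

/-- splitting a polynomial with a gap -/
theorem TS_of_coeff {P : (ZMod p)[X]} {R D : ℕ} (hdeg : P.natDegree < p + D)
    (h : ∀ k, R ≤ k → k < p → P.coeff k = 0) : TS R D P := by
  refine ⟨∑ k ∈ range p, monomial k (P.coeff k), ∑ k ∈ range D, monomial k (P.coeff (p + k)), ?_, ?_, ?_⟩
  · rw [degree_lt_iff_coeff_zero]
    intro m hm
    rw [finsetSum_coeff]
    refine Finset.sum_eq_zero fun k hk => ?_
    rw [coeff_monomial]
    split_ifs with hkm
    · subst hkm
      exact h _ hm (Finset.mem_range.1 hk)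
    · rfl
  · rw [degree_lt_iff_coeff_zero]
    intro m hm
    rw [finsetSum_coeff]
    refine Finset.sum_eq_zero fun k hk => ?_
    rw [coeff_monomial, if_neg]
    have := Finset.mem_range.1 hk
    omega
  · conv_lhs => rw [as_sum_range' P (p + D) hdeg]
    rw [Finset.sum_range_add, Finset.mul_sum]
    congr 1
    refine Finset.sum_congr rfl fun k _ => ?_
    rw [X_pow_mul_monomial, add_comm]

theorem natDegree_det_le_row {n : ℕ} (A : Matrix (Fin n) (Fin n) (ZMod p)[X]) (b : Fin n → ℕ)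
    (h : ∀ i j, (A i j).natDegree ≤ b i) : A.det.natDegree ≤ ∑ i, b i := by
  rw [Matrix.det_apply]
  refine natDegree_sum_le_of_forall_le _ _ fun σ _ => ?_
  refine (natDegree_smul_le _ _).trans ?_
  refine (natDegree_prod_le _ _).trans ?_
  calc ∑ i, (A (σ i) i).natDegree ≤ ∑ i, b (σ i) := Finset.sum_le_sum fun i _ => h _ _
    _ = ∑ i, b i := Equiv.sum_comp σ b

theorem natDegree_adj_le {n D : ℕ} (A : Matrix (Fin n) (Fin n) (ZMod p)[X])
    (h : ∀ i j, (A i j).natDegree ≤ D - 1) (i j : Fin n) :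
    (A.adjugate i j).natDegree ≤ (n - 1) * D := by
  rw [Matrix.adjugate_apply]
  have h1 := natDegree_det_le_row (A.updateRow j (Pi.single i 1)) (fun k => if k = j then 0 else D - 1) (by
    intro k l
    by_cases hk : k = j
    · rw [hk, Matrix.updateRow_self, if_pos rfl]
      by_cases hl : l = i
      · rw [hl, Pi.single_eq_same, natDegree_one]
      · rw [Pi.single_eq_of_ne hl, natDegree_zero]
    · rw [Matrix.updateRow_ne hk, if_neg hk]
      exact h k l)
  refine h1.trans ?_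
  rw [Finset.sum_ite, Finset.sum_const_zero, zero_add, Finset.sum_const, smul_eq_mul]
  have h2 : (Finset.univ.filter (fun k : Fin n => ¬ k = j)).card = n - 1 := by
    rw [Finset.filter_not, Finset.filter_eq' Finset.univ j, if_pos (Finset.mem_univ j),
      Finset.card_sdiff_of_subset (Finset.subset_univ _), Finset.card_univ, Fintype.card_fin,
      Finset.card_singleton]
  rw [h2]
  exact Nat.mul_le_mul_left _ (Nat.sub_le _ _)

/-- `ρ_i` -/
noncomputable def rhoW (p : ℕ) [Fact p.Prime] {r : ℕ} (M : Finset ℕ) (c : ℕ → Fin r → ZMod p) (i : Fin r) :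
    (ZMod p)[X] := ∑ m ∈ M, C (c m i) * RM p m

/-- `Et i` -/
noncomputable def EtW {r : ℕ} (E : (ZMod p)[X]) (M : Finset ℕ) (c : ℕ → Fin r → ZMod p) (i : Fin r) :
    (ZMod p)[X] := ∑ m ∈ M, C (c m i) * EM E m

/-- the common denominator -/
noncomputable def QW (p : ℕ) [Fact p.Prime] (r : ℕ) (M : Finset ℕ) : (ZMod p)[X] :=
  ∏ j ∈ range r, ∏ m ∈ M, ∏ i' ∈ cop m, (X + C ((j : ZMod p) + fr p i' m)) ^ 2

theorem QW_ne_zero (r : ℕ) (M : Finset ℕ) : QW p r M ≠ 0 := by
  unfold QW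
  refine Finset.prod_ne_zero_iff.2 fun j _ => Finset.prod_ne_zero_iff.2 fun m _ =>
    Finset.prod_ne_zero_iff.2 fun i _ => pow_ne_zero 2 (X_add_C_ne_zero _)

theorem card_cop_le (m : ℕ) : (cop m).card ≤ m := by
  unfold cop
  refine (Finset.card_filter_le _ _).trans ?_
  rw [Nat.card_Icc]
  omega

theorem natDegree_QW_le {F r : ℕ} {M : Finset ℕ} (hM : ∀ m ∈ M, 1 ≤ m ∧ m ≤ F) (hrF : r ≤ F) :
    (QW p r M).natDegree ≤ 2 * F ^ 3 := by
  unfold QW
  have hcard : M.card ≤ F := by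
    have h1 : M ⊆ Finset.Icc 1 F := fun m hm => Finset.mem_Icc.2 (hM m hm)
    have h2 := Finset.card_le_card h1
    rw [Nat.card_Icc] at h2
    omega
  refine (natDegree_prod_le _ _).trans ?_
  have h1 : ∀ j ∈ range r, (∏ m ∈ M, ∏ i' ∈ cop m, (X + C ((j : ZMod p) + fr p i' m)) ^ 2).natDegree
      ≤ F * (F * 2) := by
    intro j _
    refine (natDegree_prod_le _ _).trans ?_
    have h2 : ∀ m ∈ M, (∏ i' ∈ cop m, (X + C ((j : ZMod p) + fr p i' m)) ^ 2).natDegree ≤ F * 2 := by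
      intro m hm
      refine (natDegree_prod_le _ _).trans ?_
      have h3 : ∀ i' ∈ cop m, ((X + C ((j : ZMod p) + fr p i' m)) ^ 2).natDegree ≤ 2 := by
        intro i' _
        rw [natDegree_pow, natDegree_X_add_C]
      refine (Finset.sum_le_card_nsmul _ _ _ h3).trans ?_
      rw [smul_eq_mul]
      exact Nat.mul_le_mul_right 2 ((card_cop_le m).trans (hM m hm).2)
    refine (Finset.sum_le_card_nsmul _ _ _ h2).trans ?_
    rw [smul_eq_mul]
    exact Nat.mul_le_mul_right _ hcard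
  refine (Finset.sum_le_card_nsmul _ _ _ h1).trans ?_
  rw [smul_eq_mul, Finset.card_range]
  calc r * (F * (F * 2)) ≤ F * (F * (F * 2)) := Nat.mul_le_mul_right _ hrF
    _ = 2 * F ^ 3 := by ring

theorem dvd_QW {r : ℕ} {M : Finset ℕ} {j m i' : ℕ} (hj : j < r) (hm : m ∈ M) (hi : i' ∈ cop m) :
    (X + C ((j : ZMod p) + fr p i' m)) ^ 2 ∣ QW p r M := by
  unfold QW
  refine dvd_trans ?_ (Finset.dvd_prod_of_mem _ (Finset.mem_range.2 hj))
  refine dvd_trans ?_ (Finset.dvd_prod_of_mem _ hm)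
  exact Finset.dvd_prod_of_mem (fun i' => (X + C ((j : ZMod p) + fr p i' m)) ^ 2) hi

/-- `Q (X+a)^(p-2) = C a Q' + X^p Q'` -/
theorem Q_mul_pow {Q Q' : (ZMod p)[X]} {a : ZMod p} (h : Q = (X + C a) ^ 2 * Q') :
    Q * (X + C a) ^ (p - 2) = C a * Q' + X ^ p * Q' := by
  rw [h]
  have := sq_mul_pow a
  linear_combination Q' * this

theorem deg_cof {Q Q' : (ZMod p)[X]} {a : ZMod p} (hQ : Q ≠ 0) (h : Q = (X + C a) ^ 2 * Q') {q : ℕ}
    (hq : Q.natDegree ≤ q) : Q'.degree < (q : ℕ) := by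
  have hQ' : Q' ≠ 0 := by
    rintro rfl
    exact hQ (by rw [h, mul_zero])
  rw [degree_eq_natDegree hQ', Nat.cast_lt]
  have h1 : Q.natDegree = 2 + Q'.natDegree := by
    rw [h, natDegree_mul (pow_ne_zero 2 (X_add_C_ne_zero a)) hQ', natDegree_pow, natDegree_X_add_C]
  omega

theorem TS_Q_rho {r : ℕ} {M : Finset ℕ} (c : ℕ → Fin r → ZMod p) (i : Fin r) {j q : ℕ} (hj : j < r)
    (hq : (QW p r M).natDegree ≤ q) :
    TS q q (QW p r M * taylor (j : ZMod p) (rhoW p M c i)) := by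
  unfold rhoW
  rw [map_sum, Finset.mul_sum]
  refine TS.sum _ _ fun m hm => ?_
  rw [taylor_mul, taylor_C]
  unfold RM
  rw [map_sum, Finset.mul_sum, Finset.mul_sum]
  refine TS.sum _ _ fun i' hi => ?_
  obtain ⟨Q', hQ'⟩ := dvd_QW (p := p) hj hm hi
  have h1 : (taylor (j : ZMod p)) ((X + C (fr p i' m)) ^ (p - 2))
      = (X + C ((j : ZMod p) + fr p i' m)) ^ (p - 2) := by
    rw [taylor_pow, map_add, taylor_X, taylor_C, C_add]
    ring
  have h2 := Q_mul_pow hQ'
  have h3 := deg_cof (QW_ne_zero r M) hQ' hq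
  refine ⟨C (c m i) * (C ((j : ZMod p) + fr p i' m) * Q'), C (c m i) * Q', ?_, ?_, ?_⟩
  · have h4 := deg_mul_lt (H := C ((j : ZMod p) + fr p i' m)) (h := 0) (by rw [natDegree_C]) h3
    exact deg_mul_lt (H := C (c m i)) (h := 0) (by rw [natDegree_C]) h4
  · exact deg_mul_lt (H := C (c m i)) (h := 0) (by rw [natDegree_C]) h3
  · rw [h1]
    linear_combination C (c m i) * h2

theorem taylor_EtW {E : (ZMod p)[X]} (hE : IsE E) {F r : ℕ} {M : Finset ℕ}
    (hM : ∀ m ∈ M, 1 ≤ m ∧ m ≤ F) (hFp : F < p) (c : ℕ → Fin r → ZMod p) (i : Fin r) (n : ℕ) :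
    taylor (n : ZMod p) (EtW E M c i) = EtW E M c i + ∑ j ∈ range n, taylor (j : ZMod p) (rhoW p M c i) := by
  unfold EtW rhoW
  have h1 : ∑ j ∈ range n, taylor (j : ZMod p) (∑ m ∈ M, C (c m i) * RM p m)
      = ∑ m ∈ M, C (c m i) * ∑ j ∈ range n, taylor (j : ZMod p) (RM p m) := by
    simp only [map_sum, taylor_mul, taylor_C]
    rw [Finset.sum_comm]
    refine Finset.sum_congr rfl fun m _ => ?_
    rw [Finset.mul_sum]
  rw [h1, map_sum, ← Finset.sum_add_distrib]
  refine Finset.sum_congr rfl fun m hm => ?_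
  rw [taylor_mul, taylor_C, taylor_EM_nat hE (hM m hm).1 (by have := (hM m hm).2; omega) n]
  ring

theorem cramer {E : (ZMod p)[X]} (hE : IsE E) {F D R r : ℕ} (M : Finset ℕ)
    (hM : ∀ m ∈ M, 1 ≤ m ∧ m ≤ F) (hFp : F < p) (g : Fin r → (ZMod p)[X]) (c : ℕ → Fin r → ZMod p)
    (hr : 1 ≤ r) (hrF : r ≤ F) (hg : ∀ i, (g i).natDegree < D) (hdet : (CM g).det ≠ 0)
    (hdeg : (CM g).det.natDegree ≤ r * (D - 1)) (hDR : D ≤ R)
    (hA : 6 * F ^ 3 + 2 * F * D + R ≤ p + D)
    (hΦ : ∀ k, R ≤ k → k < p → (∑ i, g i * ∑ m ∈ M, C (c m i) * EM E m).coeff k = 0) :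
    ∃ (d : (ZMod p)[X]) (V : Fin r → (ZMod p)[X]) (B : (ZMod p)[X]), d ≠ 0 ∧ d.natDegree < p ∧
      (∑ i, g i * V i = d * B) ∧
      ∀ i, rf p (taylor 1 (V i)) / rf p (taylor 1 d) - rf p (V i) / rf p d =
        ∑ m ∈ M, ∑ i' ∈ cop m, rf p (C (c m i)) / (rf p (X + C (fr p i' m))) ^ 2 := by
  classical
  have hF1 : 1 ≤ F := hr.trans hrF
  set Q := QW p r M with hQdef
  have hQ0 : Q ≠ 0 := QW_ne_zero r M
  obtain ⟨q, hq, hqF⟩ : ∃ q, Q.natDegree ≤ q ∧ q ≤ 2 * F ^ 3 := ⟨_, natDegree_QW_le hM hrF, le_rfl⟩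
  have hF3 : 1 ≤ F ^ 3 := Nat.one_le_pow _ _ hF1
  have hrD : r * D ≤ F * D := Nat.mul_le_mul_right D hrF
  have hFD : D ≤ F * D := Nat.le_mul_of_pos_left D hF1
  have hrD1 : r * (D - 1) ≤ r * D := Nat.mul_le_mul_left r (Nat.sub_le _ _)
  have hrD2 : (r - 1) * D + D = r * D := by
    obtain ⟨s, rfl⟩ : ∃ s, r = s + 1 := ⟨r - 1, by omega⟩
    rw [Nat.add_sub_cancel]
    ring
  have hA' : 6 * F ^ 3 + 2 * (F * D) + R ≤ p + D := by
    calc 6 * F ^ 3 + 2 * (F * D) + R = 6 * F ^ 3 + 2 * F * D + R := by ring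
      _ ≤ p + D := hA
  have hD1 : ∀ i : Fin r, 1 ≤ D := fun i => by have := hg i; omega
  set Et := EtW E M c with hEt
  have hEtdeg : ∀ i, (Et i).natDegree < p := by
    intro i
    rw [hEt]
    unfold EtW
    have hp0 : 0 < p := (Fact.out : p.Prime).pos
    refine lt_of_le_of_lt (natDegree_sum_le_of_forall_le (n := p - 1) _ _ fun m _ => ?_) (by omega)
    refine (natDegree_C_mul_le _ _).trans ?_
    have := natDegree_EM hE.deg m
    omega
  -- Φ
  set Φ := ∑ i, g i * Et i with hPhi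
  have hΦTS : TS R D Φ := by
    refine TS_of_coeff ?_ hΦ
    have hp0 : 0 < p := (Fact.out : p.Prime).pos
    have i0 : Fin r := ⟨0, hr⟩
    have h0 := hD1 i0
    refine lt_of_le_of_lt (natDegree_sum_le_of_forall_le (n := (D - 1) + (p - 1)) _ _ fun i _ => ?_)
      (by omega)
    refine natDegree_mul_le.trans ?_
    have h1 := hg i
    have h2 := hEtdeg i
    omega
  -- N j
  have hN : ∀ j : Fin r, TS (R + q) (D + q) (Q * ∑ i, taylor ((j : ℕ) : ZMod p) (g i) * Et i) := by
    intro j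
    have h1 : Q * ∑ i, taylor ((j : ℕ) : ZMod p) (g i) * Et i
        = Q * taylor ((j : ℕ) : ZMod p) Φ - ∑ i, ∑ j' ∈ range (j : ℕ),
            taylor ((j : ℕ) : ZMod p) (g i) * (Q * taylor (j' : ZMod p) (rhoW p M c i)) := by
      rw [hPhi, map_sum, Finset.mul_sum, Finset.mul_sum, ← Finset.sum_sub_distrib]
      refine Finset.sum_congr rfl fun i _ => ?_
      rw [taylor_mul, hEt, taylor_EtW hE hM hFp c i (j : ℕ), ← Finset.mul_sum, ← Finset.mul_sum]
      ring
    rw [h1]
    refine TS.sub ((hΦTS.taylor hDR _).mul Q hq) (TS.sum _ _ fun i _ => TS.sum _ _ fun j' hj' => ?_)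
    have h2 : TS q q (Q * taylor (j' : ZMod p) (rhoW p M c i)) :=
      TS_Q_rho c i (lt_trans (Finset.mem_range.1 hj') j.2) hq
    have h3 := h2.mul (taylor ((j : ℕ) : ZMod p) (g i)) (h := D)
      (by rw [natDegree_taylor]; exact (hg i).le)
    exact h3.mono (by omega) (by omega)
  -- Cramer
  set Δ := (CM g).det with hΔ
  have hdEt : ∀ i, TS (R + q + (r - 1) * D) (r * D + q) (Q * Δ * Et i) := by
    intro i
    have h1 : Δ * Et i = ∑ j, (CM g).adjugate i j * ∑ k, taylor ((j : ℕ) : ZMod p) (g k) * Et k := by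
      have h2 : (CM g).adjugate.mulVec ((CM g).mulVec Et) i = Δ * Et i := by
        rw [Matrix.mulVec_mulVec, Matrix.adjugate_mul, Matrix.smul_mulVec, Matrix.one_mulVec]
        rfl
      rw [← h2]
      rfl
    have h3 : Q * Δ * Et i = ∑ j, (CM g).adjugate i j *
        (Q * ∑ k, taylor ((j : ℕ) : ZMod p) (g k) * Et k) := by
      rw [mul_assoc, h1, Finset.mul_sum]
      refine Finset.sum_congr rfl fun j _ => ?_
      ring
    rw [h3]
    refine TS.sum _ _ fun j _ => ?_
    have h4 := (hN j).mul ((CM g).adjugate i j) (h := (r - 1) * D)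
      (natDegree_adj_le (CM g) (fun a b => by
        show (taylor ((a : ℕ) : ZMod p) (g b)).natDegree ≤ D - 1
        rw [natDegree_taylor]
        have := hg b
        omega) i j)
    exact h4.mono le_rfl (by omega)
  choose U V hU hV hUV using hdEt
  set d := Q * Δ with hd
  have hd0 : d ≠ 0 := mul_ne_zero hQ0 hdet
  have hddeg : d.natDegree ≤ q + r * D := by
    refine natDegree_mul_le.trans ?_
    omega
  clear_value d
  obtain ⟨A, B, hAdeg, hBdeg, hAB⟩ := hΦTS
  refine ⟨d, V, B, hd0, by omega, ?_, ?_⟩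
  · -- (5.3a)
    refine split_unique (U := ∑ i, g i * U i) (U' := d * A) ?_ ?_ ?_
    · refine deg_sum_lt _ _ fun i _ => ?_
      have h1 := deg_mul_lt (H := g i) (h := D) (hg i).le (hU i)
      exact deg_mono h1 (by omega)
    · have h1 := deg_mul_lt (H := d) hddeg hAdeg
      exact deg_mono h1 (by omega)
    · have h1 : d * Φ = d * A + X ^ p * (d * B) := by rw [hAB]; ring
      have h2 : d * Φ = ∑ i, g i * U i + X ^ p * ∑ i, g i * V i := by
        rw [hPhi, Finset.mul_sum, Finset.mul_sum, ← Finset.sum_add_distrib]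
        refine Finset.sum_congr rfl fun i _ => ?_
        have := hUV i
        linear_combination g i * this
      rw [← h2, h1]
  · -- (5.3b)
    intro i
    have hcof : ∀ m ∈ M, ∀ i' ∈ cop m, ∃ Q' : (ZMod p)[X], Q = (X + C (fr p i' m)) ^ 2 * Q' := by
      intro m hm i' hi
      obtain ⟨Q', hQ'⟩ := dvd_QW (p := p) (j := 0) hr hm hi
      refine ⟨Q', ?_⟩
      rw [Nat.cast_zero, zero_add] at hQ'
      exact hQ'
    choose! Qc hQc using hcof
    set a := ∑ m ∈ M, ∑ i' ∈ cop m, C (c m i) * (C (fr p i' m) * Qc m i') with ha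
    set b := ∑ m ∈ M, ∑ i' ∈ cop m, C (c m i) * Qc m i' with hb
    have hQρ : Q * rhoW p M c i = a + X ^ p * b := by
      unfold rhoW RM
      rw [ha, hb, Finset.mul_sum, Finset.mul_sum, ← Finset.sum_add_distrib]
      refine Finset.sum_congr rfl fun m hm => ?_
      rw [Finset.mul_sum, Finset.mul_sum, Finset.mul_sum, ← Finset.sum_add_distrib]
      refine Finset.sum_congr rfl fun i' hi => ?_
      have := Q_mul_pow (hQc m hm i' hi)
      linear_combination C (c m i) * this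
    have hadeg : a.degree < (q : ℕ) := by
      refine deg_sum_lt _ _ fun m hm => deg_sum_lt _ _ fun i' hi => ?_
      have h3 := deg_cof hQ0 (hQc m hm i' hi) hq
      have h4 := deg_mul_lt (H := C (fr p i' m)) (h := 0) (by rw [natDegree_C]) h3
      exact deg_mul_lt (H := C (c m i)) (h := 0) (by rw [natDegree_C]) h4
    have h1 : taylor 1 (Et i) = Et i + rhoW p M c i := by
      have h2 := taylor_EtW hE hM hFp c i 1
      rw [Nat.cast_one, Finset.sum_range_one, Nat.cast_zero, taylor_zero] at h2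
      exact h2
    have h2 : taylor 1 d * taylor 1 (Et i) = taylor 1 (U i) + (X ^ p + 1) * taylor 1 (V i) := by
      have h3 := congrArg (taylor (1 : ZMod p)) (hUV i)
      rw [taylor_mul, map_add, taylor_mul, taylor_X_pow_p, C_1] at h3
      exact h3
    have hhigh : Q * d * taylor 1 (V i) - Q * taylor 1 d * V i = d * taylor 1 d * b := by
      refine split_unique (U := Q * d * (taylor 1 (U i) + taylor 1 (V i)) - Q * taylor 1 d * U i)
        (U' := d * taylor 1 d * a) ?_ ?_ ?_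
      · have hVd : (taylor 1 (V i)).degree < ((R + q + (r - 1) * D : ℕ) : WithBot ℕ) := by
          rw [deg_taylor]
          exact deg_mono (hV i) (by omega)
        have hUd : (taylor 1 (U i)).degree < ((R + q + (r - 1) * D : ℕ) : WithBot ℕ) := by
          rw [deg_taylor]
          exact hU i
        have e1 : (Q * d).natDegree ≤ q + (q + r * D) := natDegree_mul_le.trans (by omega)
        have e2 : (Q * taylor 1 d).natDegree ≤ q + (q + r * D) :=
          natDegree_mul_le.trans (by rw [natDegree_taylor]; omega)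
        refine deg_sub_lt (deg_mono (deg_mul_lt e1 (deg_add_lt hUd hVd)) ?_)
          (deg_mono (deg_mul_lt e2 (hU i)) ?_) <;> omega
      · have e1 : (d * taylor 1 d).natDegree ≤ (q + r * D) + (q + r * D) :=
          natDegree_mul_le.trans (by rw [natDegree_taylor]; omega)
        exact deg_mono (deg_mul_lt e1 hadeg) (by omega)
      · have h4 := hUV i
        linear_combination (-(Q * d)) * h2 + (Q * taylor 1 d) * h4 + (Q * d * taylor 1 d) * h1
          + (d * taylor 1 d) * hQρ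
    -- divide
    have hrQ : rf p Q ≠ 0 := by
      intro h; exact hQ0 ((map_eq_zero_iff _ (RatFunc.algebraMap_injective (ZMod p))).1 h)
    have hrd : rf p d ≠ 0 := by
      intro h; exact hd0 ((map_eq_zero_iff _ (RatFunc.algebraMap_injective (ZMod p))).1 h)
    have hd1 : taylor 1 d ≠ 0 := fun h => hd0 (taylor_injective (1 : ZMod p) (by rw [h, map_zero]))
    have hrd1 : rf p (taylor 1 d) ≠ 0 := by
      intro h; exact hd1 ((map_eq_zero_iff _ (RatFunc.algebraMap_injective (ZMod p))).1 h)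
    have h5 : rf p (taylor 1 (V i)) / rf p (taylor 1 d) - rf p (V i) / rf p d = rf p b / rf p Q := by
      have h6 := congrArg (rf p) hhigh
      simp only [map_sub, map_mul] at h6
      rw [div_sub_div _ _ hrd1 hrd, div_eq_div_iff (mul_ne_zero hrd1 hrd) hrQ]
      linear_combination h6
    rw [h5, hb, map_sum, Finset.sum_div]
    refine Finset.sum_congr rfl fun m hm => ?_
    rw [map_sum, Finset.sum_div]
    refine Finset.sum_congr rfl fun i' hi => ?_
    have h7 := hQc m hm i' hi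
    have h8 : rf p Q = (rf p (X + C (fr p i' m))) ^ 2 * rf p (Qc m i') := by
      rw [← map_pow, ← map_mul, ← h7]
    have h9 : rf p (Qc m i') ≠ 0 := by
      intro h
      apply hrQ
      rw [h8, h, mul_zero]
    rw [map_mul, h8, mul_div_mul_right _ _ h9]

end MP_a3a416_nt.WW
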