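import Pool.Agent.Lib.MP_a3a416_nt.WW.Defs

/-!
# WW-Local : double poles at the points of `F_p`

`RegW x f`: `f * rf q = rf P` with `q.eval x ≠ 0`.  `d ≠ 0`, `natDegree d < p` : there is `α₀` with `d.eval α₀ ≠ 0`.
`f_i^(k) = rf (taylor k (V i)) / rf (taylor k d)`; the difference `f_i^(k) - β_i(k)/(X-α₀)^2` is regular at `α₀`,
`β_i(k) = ∑_{l<k} jump_i(α₀+l)`.  `f_i^(p) = f_i^(0)`, so `β_i(p) = 0`.
-/

namespace MP_a3a416_nt.WW

open Polynomial Finset

variable {p : ℕ} [Fact p.Prime]

/-- the shift `x ↦ x + 1` on rational functions -/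
noncomputable def shw (p : ℕ) [Fact p.Prime] : RatFunc (ZMod p) →+* RatFunc (ZMod p) :=
  IsFractionRing.map (A := (ZMod p)[X]) (B := (ZMod p)[X]) (j := (taylorAlgHom (1 : ZMod p)).toRingHom)
    (fun _ _ h => taylor_injective (1 : ZMod p) h)

theorem shw_rf (P : (ZMod p)[X]) : shw p (rf p P) = rf p (taylor 1 P) := by
  unfold shw IsFractionRing.map rf
  rw [IsLocalization.map_eq]
  rfl

theorem rf_inj : Function.Injective (rf p) := RatFunc.algebraMap_injective (ZMod p)

theorem rf_ne_zero {q : (ZMod p)[X]} (hq : q ≠ 0) : rf p q ≠ 0 := by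
  intro h
  exact hq ((map_eq_zero_iff _ rf_inj).1 h)

/-- `f` is regular at the point `x` -/
def RegW (x : ZMod p) (f : RatFunc (ZMod p)) : Prop :=
  ∃ P q : (ZMod p)[X], q.eval x ≠ 0 ∧ f * rf p q = rf p P

theorem RegW.poly (x : ZMod p) (P : (ZMod p)[X]) : RegW x (rf p P) :=
  ⟨P, 1, by simp, by simp⟩

theorem RegW.add {x : ZMod p} {f g : RatFunc (ZMod p)} (hf : RegW x f) (hg : RegW x g) :
    RegW x (f + g) := by
  obtain ⟨p1, q1, h1, e1⟩ := hf
  obtain ⟨p2, q2, h2, e2⟩ := hg
  refine ⟨p1 * q2 + p2 * q1, q1 * q2, by rw [eval_mul]; exact mul_ne_zero h1 h2, ?_⟩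
  simp only [map_mul, map_add]
  rw [← e1, ← e2]
  ring

theorem RegW.neg {x : ZMod p} {f : RatFunc (ZMod p)} (hf : RegW x f) : RegW x (-f) := by
  obtain ⟨p1, q1, h1, e1⟩ := hf
  refine ⟨-p1, q1, h1, ?_⟩
  rw [map_neg, ← e1]
  ring

theorem RegW.sub {x : ZMod p} {f g : RatFunc (ZMod p)} (hf : RegW x f) (hg : RegW x g) :
    RegW x (f - g) := by
  rw [sub_eq_add_neg]
  exact hf.add hg.neg

theorem RegW.mul {x : ZMod p} {f g : RatFunc (ZMod p)} (hf : RegW x f) (hg : RegW x g) :
    RegW x (f * g) := by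
  obtain ⟨p1, q1, h1, e1⟩ := hf
  obtain ⟨p2, q2, h2, e2⟩ := hg
  refine ⟨p1 * p2, q1 * q2, by rw [eval_mul]; exact mul_ne_zero h1 h2, ?_⟩
  simp only [map_mul]
  rw [← e1, ← e2]
  ring

theorem RegW.sum {x : ZMod p} {ι : Type*} (s : Finset ι) (f : ι → RatFunc (ZMod p))
    (h : ∀ i ∈ s, RegW x (f i)) : RegW x (∑ i ∈ s, f i) := by
  classical
  induction s using Finset.induction_on with
  | empty =>
    have := RegW.poly x 0
    simpa using this
  | insert a s ha ih =>
    rw [Finset.sum_insert ha]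
    exact RegW.add (h a (Finset.mem_insert_self a s))
      (ih fun i hi => h i (Finset.mem_insert_of_mem hi))

theorem RegW.div {x : ZMod p} {P q : (ZMod p)[X]} (hq : q.eval x ≠ 0) : RegW x (rf p P / rf p q) := by
  refine ⟨P, q, hq, ?_⟩
  have hq0 : q ≠ 0 := by
    rintro rfl
    simp at hq
  exact div_mul_cancel₀ _ (rf_ne_zero hq0)

/-- a double pole is regular only if the numerator is divisible -/
theorem RegW.dvd {x : ZMod p} {N : (ZMod p)[X]}
    (h : RegW x (rf p N / (rf p (X - C x)) ^ 2)) : (X - C x) ^ 2 ∣ N := by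
  obtain ⟨P, q, hq, e⟩ := h
  have hX : rf p (X - C x) ≠ 0 := rf_ne_zero (X_sub_C_ne_zero x)
  have e2 : rf p (N * q) = rf p (P * (X - C x) ^ 2) := by
    rw [map_mul, map_mul, map_pow, ← e]
    field_simp
  have e3 := rf_inj e2
  have hco : IsCoprime ((X - C x) ^ 2) q := by
    refine IsCoprime.pow_left ?_
    rw [Irreducible.coprime_iff_not_dvd (irreducible_X_sub_C x), dvd_iff_isRoot]
    exact hq
  refine hco.dvd_of_dvd_mul_right ?_
  rw [e3]
  exact Dvd.intro_left _ rfl

theorem RegW.double_pole {x s : ZMod p}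
    (h : RegW x (rf p (C s) / (rf p (X - C x)) ^ 2)) : s = 0 := by
  have h1 := h.dvd
  by_contra hs
  have h2 : (C s : (ZMod p)[X]) ≠ 0 := by simpa using hs
  have h3 := natDegree_le_of_dvd h1 h2
  rw [natDegree_pow, natDegree_X_sub_C, natDegree_C] at h3
  omega

/-- the jump -/
noncomputable def jumpW {r : ℕ} (M : Finset ℕ) (c : ℕ → Fin r → ZMod p) (i : Fin r) (α : ZMod p) :
    ZMod p := ∑ m ∈ M, c m i * (jc p m α : ZMod p)

theorem sum_ind_jc (m : ℕ) (α a : ZMod p) :
    ∑ i' ∈ cop m, (if α = - fr p i' m then a else 0) = a * (jc p m α : ZMod p) := by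
  classical
  unfold jc
  rw [← Finset.sum_filter, Finset.sum_const, nsmul_eq_mul, mul_comm]

theorem exists_eval_ne {d : (ZMod p)[X]} (hd : d ≠ 0) (hdeg : d.natDegree < p) :
    ∃ α : ZMod p, d.eval α ≠ 0 := by
  by_contra hcon
  push Not at hcon
  apply hd
  refine Polynomial.eq_zero_of_natDegree_lt_card_of_eval_eq_zero' d Finset.univ
    (fun x _ => hcon x) ?_
  rw [Finset.card_univ, ZMod.card]
  exact hdeg

theorem exists_beta {r : ℕ} (M : Finset ℕ) (g : Fin r → (ZMod p)[X]) (c : ℕ → Fin r → ZMod p)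
    (d : (ZMod p)[X]) (V : Fin r → (ZMod p)[X]) (B : (ZMod p)[X]) (hd : d ≠ 0)
    (hdeg : d.natDegree < p) (h1 : ∑ i, g i * V i = d * B)
    (h2 : ∀ i, rf p (taylor 1 (V i)) / rf p (taylor 1 d) - rf p (V i) / rf p d =
        ∑ m ∈ M, ∑ i' ∈ cop m, rf p (C (c m i)) / (rf p (X + C (fr p i' m))) ^ 2) :
    ∃ β : ZMod p → Fin r → ZMod p,
      (∀ α i, β (α + 1) i - β α i = ∑ m ∈ M, c m i * (jc p m α : ZMod p)) ∧
      ∀ α, (X - C α) ^ 2 ∣ ∑ i, C (β α i) * g i := by
  classical
  obtain ⟨a0, ha0⟩ := exists_eval_ne hd hdeg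
  set f : Fin r → ℕ → RatFunc (ZMod p) := fun i k =>
    rf p (taylor (k : ZMod p) (V i)) / rf p (taylor (k : ZMod p) d) with hf
  have hfs : ∀ i k, shw p (f i k) = f i (k + 1) := by
    intro i k
    simp only [hf]
    rw [map_div₀, shw_rf, shw_rf, taylor_taylor, taylor_taylor]
    push_cast
    rw [add_comm (1 : ZMod p) (k : ZMod p)]
  have hstep : ∀ i k, f i (k + 1) - f i k =
      ∑ m ∈ M, ∑ i' ∈ cop m, rf p (C (c m i)) / (rf p (X + C ((k : ZMod p) + fr p i' m))) ^ 2 := by
    intro i k
    induction k with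
    | zero =>
      have := h2 i
      simp only [hf]
      simpa using this
    | succ k ih =>
      have h3 := congrArg (shw p) ih
      rw [map_sub, hfs, hfs, map_sum] at h3
      rw [h3]
      refine Finset.sum_congr rfl fun m _ => ?_
      rw [map_sum]
      refine Finset.sum_congr rfl fun i' _ => ?_
      rw [map_div₀, map_pow, shw_rf, shw_rf, taylor_C, map_add (taylor (1 : ZMod p)), taylor_X,
        taylor_C, add_assoc, ← C_add]
      push_cast
      congr 5
      ring
  set b : Fin r → ℕ → ZMod p := fun i k => ∑ l ∈ range k, jumpW M c i (a0 + l) with hb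
  have hreg : ∀ i k, RegW a0 (f i k - rf p (C (b i k)) / (rf p (X - C a0)) ^ 2) := by
    intro i k
    induction k with
    | zero =>
      have h3 : f i 0 - rf p (C (b i 0)) / (rf p (X - C a0)) ^ 2 = rf p (V i) / rf p d := by
        simp only [hf, hb]
        simp
      rw [h3]
      exact RegW.div ha0
    | succ k ih =>
      have h3 : b i (k + 1) = b i k + ∑ m ∈ M, ∑ i' ∈ cop m,
          (if a0 + k = - fr p i' m then c m i else 0) := by
        simp only [hb]
        rw [Finset.sum_range_succ]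
        congr 1
        unfold jumpW
        refine Finset.sum_congr rfl fun m _ => ?_
        rw [sum_ind_jc]
      have h4 : f i (k + 1) - rf p (C (b i (k + 1))) / (rf p (X - C a0)) ^ 2
          = (f i k - rf p (C (b i k)) / (rf p (X - C a0)) ^ 2)
            + ∑ m ∈ M, ∑ i' ∈ cop m, (rf p (C (c m i)) / (rf p (X + C ((k : ZMod p) + fr p i' m))) ^ 2
              - rf p (C (if a0 + k = - fr p i' m then c m i else 0)) / (rf p (X - C a0)) ^ 2) := by
        rw [h3]
        have h5 := hstep i k
        have h6 : f i (k + 1) = f i k + ∑ m ∈ M, ∑ i' ∈ cop m, rf p (C (c m i)) /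
            (rf p (X + C ((k : ZMod p) + fr p i' m))) ^ 2 := by
          rw [← h5]; ring
        rw [h6]
        simp only [Finset.sum_sub_distrib, map_add, map_sum, add_div, Finset.sum_div]
        ring
      rw [h4]
      refine RegW.add ih (RegW.sum _ _ fun m _ => RegW.sum _ _ fun i' _ => ?_)
      split_ifs with hc
      · have h7 : (k : ZMod p) + fr p i' m = - a0 := by
          have : fr p i' m = -(a0 + k) := by rw [hc]; ring
          rw [this]; ring
        rw [h7, C_neg, ← sub_eq_add_neg, sub_self]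
        simpa using RegW.poly a0 (0 : (ZMod p)[X])
      · rw [map_zero, map_zero, zero_div, sub_zero, ← map_pow]
        refine RegW.div ?_
        rw [eval_pow, eval_add, eval_X, eval_C]
        refine pow_ne_zero _ ?_
        intro h8
        apply hc
        rw [eq_neg_iff_add_eq_zero, ← h8]
        ring
  have hbp : ∀ i, b i p = 0 := by
    intro i
    have h3 := hreg i p
    have h4 := hreg i 0
    have h5 : f i p = f i 0 := by
      simp only [hf]
      simp
    have h6 : RegW a0 (rf p (C (b i p)) / (rf p (X - C a0)) ^ 2) := by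
      have h7 := h4.sub h3
      have h8 : (f i 0 - rf p (C (b i 0)) / (rf p (X - C a0)) ^ 2)
          - (f i p - rf p (C (b i p)) / (rf p (X - C a0)) ^ 2)
          = rf p (C (b i p)) / (rf p (X - C a0)) ^ 2 := by
        rw [h5]
        have : b i 0 = 0 := by simp [hb]
        rw [this]
        simp
      rw [h8] at h7
      exact h7
    exact h6.double_pole
  refine ⟨fun α i => b i ((α - a0).val), ?_, ?_⟩
  · intro α i
    have hk : a0 + (((α - a0).val : ℕ) : ZMod p) = α := by
      rw [ZMod.natCast_zmod_val]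
      ring
    have hlt : (α - a0).val < p := ZMod.val_lt _
    have hs : ∀ k, b i (k + 1) = b i k + jumpW M c i (a0 + k) := by
      intro k
      simp only [hb]
      rw [Finset.sum_range_succ]
    show b i ((α + 1 - a0).val) - b i ((α - a0).val) = jumpW M c i α
    have hs1 := hs ((α - a0).val)
    rw [hk] at hs1
    by_cases hlast : (α - a0).val + 1 < p
    · have h3 : (α + 1 - a0).val = (α - a0).val + 1 := by
        have h4 : α + 1 - a0 = (((α - a0).val + 1 : ℕ) : ZMod p) := by
          push_cast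
          rw [ZMod.natCast_zmod_val]
          ring
        rw [h4, ZMod.val_natCast, Nat.mod_eq_of_lt hlast]
      rw [h3, hs1]
      ring
    · have h3 : (α - a0).val + 1 = p := by omega
      have h4 : (α + 1 - a0).val = 0 := by
        have h5 : α + 1 - a0 = (((α - a0).val + 1 : ℕ) : ZMod p) := by
          push_cast
          rw [ZMod.natCast_zmod_val]
          ring
        rw [h5, h3]
        simp
      rw [h4]
      rw [h3, hbp] at hs1
      have h5 : b i 0 = 0 := by simp [hb]
      rw [h5]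
      linear_combination hs1
  · intro α
    set k := (α - a0).val with hkdef
    have hk : a0 + ((k : ℕ) : ZMod p) = α := by
      rw [hkdef, ZMod.natCast_zmod_val]
      ring
    have hdk : taylor (k : ZMod p) d ≠ 0 := fun h => hd (taylor_injective (k : ZMod p) (by rw [h, map_zero]))
    have h3 : ∑ i, rf p (taylor (k : ZMod p) (g i)) * f i k = rf p (taylor (k : ZMod p) B) := by
      have h4 := congrArg (taylor (k : ZMod p)) h1
      rw [map_sum, taylor_mul] at h4
      have h5 := congrArg (rf p) h4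
      rw [map_sum, map_mul] at h5
      have h6 : ∑ i, rf p (taylor (k : ZMod p) (g i)) * f i k
          = (∑ i, rf p (taylor (k : ZMod p) (g i * V i))) / rf p (taylor (k : ZMod p) d) := by
        rw [Finset.sum_div]
        refine Finset.sum_congr rfl fun i _ => ?_
        rw [taylor_mul, map_mul]
        simp only [hf]
        ring
      rw [h6, h5, mul_div_cancel_left₀ _ (rf_ne_zero hdk)]
    have h4 : RegW a0 (rf p (∑ i, C (b i k) * taylor (k : ZMod p) (g i)) / (rf p (X - C a0)) ^ 2) := by
      have h5 : rf p (∑ i, C (b i k) * taylor (k : ZMod p) (g i)) / (rf p (X - C a0)) ^ 2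
          = rf p (taylor (k : ZMod p) B) - ∑ i, rf p (taylor (k : ZMod p) (g i)) *
              (f i k - rf p (C (b i k)) / (rf p (X - C a0)) ^ 2) := by
        rw [← h3, ← Finset.sum_sub_distrib, map_sum, Finset.sum_div]
        refine Finset.sum_congr rfl fun i _ => ?_
        rw [map_mul]
        ring
      rw [h5]
      exact (RegW.poly _ _).sub (RegW.sum _ _ fun i _ => (RegW.poly _ _).mul (hreg i k))
    have h5 := h4.dvd
    have h6 := map_dvd (taylorAlgHom (-(k : ZMod p))) h5
    simp only [taylorAlgHom_apply] at h6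
    rw [taylor_pow, map_sub (taylor (-(k : ZMod p))), taylor_X, taylor_C, map_sum] at h6
    have h7 : (X + C (-(k : ZMod p)) - C a0 : (ZMod p)[X]) = X - C α := by
      rw [← hk, C_add, C_neg]
      ring
    rw [h7] at h6
    have h8 : ∑ i, taylor (-(k : ZMod p)) (C (b i k) * taylor (k : ZMod p) (g i))
        = ∑ i, C (b i k) * g i := by
      refine Finset.sum_congr rfl fun i _ => ?_
      rw [taylor_mul, taylor_C, taylor_taylor, neg_add_cancel, taylor_zero]
    rw [h8] at h6
    exact h6

end MP_a3a416_nt.WW
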