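import Pool.Agent.Lib.MP_a3a416_nt.WW.Basis
import Pool.Agent.Lib.MP_a3a416_nt.WW.Cas
import Pool.Agent.Lib.MP_a3a416_nt.WW.Cramer
import Pool.Agent.Lib.MP_a3a416_nt.WW.Local
import Pool.Agent.Lib.MP_a3a416_nt.WW.Count

/-!
# WW-ZeroEst : the zero estimate
-/

namespace MP_a3a416_nt.WW

open Polynomial Finset

variable {p : ℕ} [Fact p.Prime]

private theorem ze_numeric {F D r m t p : ℕ} (hF : 1 ≤ F) (hmF : m ≤ F) (hm : 1 ≤ m) (hr : r ≤ F)
    (ht : F ≤ 8 * t) (hB : 8 * F * D + F ^ 3 ≤ p) : D ≤ t * (p / (m * F) + 1 - r) := by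
  have h1 : p / (F * F) ≤ p / (m * F) :=
    Nat.div_le_div_left (Nat.mul_le_mul_right F hmF) (Nat.mul_pos hm hF)
  have h2 : p < F * F * (p / (F * F) + 1) := Nat.lt_mul_div_succ p (Nat.mul_pos hF hF)
  obtain ⟨y, hy⟩ : ∃ y, y = p / (F * F) + 1 := ⟨_, rfl⟩
  obtain ⟨x, hx⟩ : ∃ x, x = p / (m * F) + 1 - r := ⟨_, rfl⟩
  rw [← hy] at h2
  rw [← hx]
  have h3 : 8 * F * D + F ^ 3 < F * F * y := lt_of_le_of_lt hB h2
  have h4 : y ≤ x + F := by omega
  have h5 : F * F * y ≤ F * F * (x + F) := Nat.mul_le_mul_left _ h4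
  have h6 : F * (8 * D) < F * (F * x) := by nlinarith
  have h7 : 8 * D < F * x := lt_of_mul_lt_mul_left h6 (Nat.zero_le _)
  have h8 : F * x ≤ 8 * t * x := Nat.mul_le_mul_right x ht
  nlinarith

theorem zero_est {E : (ZMod p)[X]} (hE : IsE E) {F D R : ℕ} (M0 : Finset ℕ)
    (hM0 : ∀ m ∈ M0, 1 ≤ m ∧ m ≤ F ∧ F ≤ 8 * m.totient) (G : ℕ → (ZMod p)[X])
    (hG : ∃ m ∈ M0, G m ≠ 0) (hdeg : ∀ m, (G m).natDegree < D) (hDR : D ≤ R) (hFp : F < p)
    (hA : 6 * F ^ 3 + 2 * F * D + R ≤ p + D) (hB : 8 * F * D + F ^ 3 ≤ p) :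
    ¬ ∀ k, R ≤ k → k < p → (Ph E M0 G).coeff k = 0 := by
  classical
  intro hΦ0
  have hF1 : 1 ≤ F := by
    obtain ⟨m, hm, -⟩ := hG
    have := hM0 m hm
    omega
  have hD1 : 1 ≤ D := by
    have := hdeg 0
    omega
  have hDp : D ≤ p := by nlinarith [Nat.zero_le (F ^ 3)]
  obtain ⟨r, hr1, hrc, g, c, hind, hgD, hGe, hcne⟩ := exists_basis M0 G D (fun m _ => hdeg m) hG
  obtain ⟨M, hMdef⟩ : ∃ M : Finset ℕ, M = M0.filter (fun m => G m ≠ 0) := ⟨_, rfl⟩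
  have hrcM : r ≤ M.card := by
    rw [hMdef]
    convert hrc
  have hMM0 : ∀ m ∈ M, m ∈ M0 := by
    intro m hm
    rw [hMdef] at hm
    exact (Finset.mem_filter.1 hm).1
  have hMne : ∀ m ∈ M, G m ≠ 0 := by
    intro m hm
    rw [hMdef] at hm
    exact (Finset.mem_filter.1 hm).2
  have hM : ∀ m ∈ M, 1 ≤ m ∧ m ≤ F := fun m hm => ⟨(hM0 m (hMM0 m hm)).1, (hM0 m (hMM0 m hm)).2.1⟩
  have hMF : M.card ≤ F := by
    have h1 : M ⊆ Icc 1 F := fun m hm => Finset.mem_Icc.2 (hM m hm)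
    have h2 := Finset.card_le_card h1
    rwa [Nat.card_Icc, Nat.add_sub_cancel] at h2
  have hrF : r ≤ F := hrcM.trans hMF
  have hdet := casorati_ne_zero g hind (fun i => lt_of_lt_of_le (hgD i) hDp)
  have hdetdeg := natDegree_det_le g hgD
  have hPh : Ph E M0 G = ∑ i, g i * ∑ m ∈ M, C (c m i) * EM E m := by
    have h1 : Ph E M0 G = ∑ m ∈ M, G m * EM E m := by
      rw [Ph, hMdef, Finset.sum_filter]
      apply Finset.sum_congr rfl
      intro m _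
      by_cases h : G m = 0
      · rw [if_neg (by simpa using h), h, zero_mul]
      · rw [if_pos h]
    rw [h1]
    have h2 : ∀ m ∈ M, G m * EM E m = ∑ i, g i * (C (c m i) * EM E m) := by
      intro m hm
      conv_lhs => rw [hGe m (hMM0 m hm)]
      rw [Finset.sum_mul]
      apply Finset.sum_congr rfl
      intro i _
      ring
    rw [Finset.sum_congr rfl h2, Finset.sum_comm]
    apply Finset.sum_congr rfl
    intro i _
    rw [Finset.mul_sum]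
  rw [hPh] at hΦ0
  obtain ⟨d, V, B, hd0, hdp, h53a, h53b⟩ :=
    cramer hE M hM hFp g c hr1 hrF hgD hdet hdetdeg hDR hA hΦ0
  obtain ⟨β, hβ1, hβ2⟩ := exists_beta M g c d V B hd0 hdp h53a h53b
  have hF2 : F ^ 2 ≤ p := by
    have h1 : F ^ 2 ≤ F ^ 3 := Nat.pow_le_pow_right hF1 (by norm_num)
    have h2 : F ^ 3 ≤ 8 * F * D + F ^ 3 := Nat.le_add_left _ _
    omega
  have hcount := count M hM hF2 hr1 g hdet c
    (fun m hm => hcne m (hMM0 m hm) (hMne m hm)) β hβ1 hβ2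
  have hlow : ∀ m ∈ M, D ≤ (cop m).card * (p / (m * F) + 1 - r) := by
    intro m hm
    have h1 := hM0 m (hMM0 m hm)
    rw [card_cop h1.1]
    exact ze_numeric hF1 h1.2.1 h1.1 hrF h1.2.2 hB
  have hsum : M.card * D ≤ ∑ m ∈ M, (cop m).card * (p / (m * F) + 1 - r) := by
    rw [← smul_eq_mul]
    exact Finset.card_nsmul_le_sum M _ D hlow
  have h1 : M.card * D ≤ r * (D - 1) := (hsum.trans hcount).trans hdetdeg
  have h2 : r * D ≤ M.card * D := Nat.mul_le_mul_right D hrcM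
  have h3 : r * (D - 1) < r * D := Nat.mul_lt_mul_of_pos_left (by omega) (by omega)
  omega

end MP_a3a416_nt.WW
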