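import Pool.Agent.Lib.MP_a3a416_nt.BB.EPoly
import Pool.Agent.Lib.MP_a3a416_nt.WW.Exist
import Pool.Agent.Lib.MP_a3a416_nt.WW.Rows
import Pool.Agent.Lib.MP_a3a416_nt.WW.Phi
import Pool.Agent.Lib.MP_a3a416_nt.WW.ZeroEst

/-!
# WW-Block : one block
-/

namespace MP_a3a416_nt.WW

open Polynomial Finset

private theorem exists_isE {p : ℕ} [Fact p.Prime] (hp5 : 5 ≤ p) :
    ∃ E : (ZMod p)[X], IsE E ∧ (∀ k, Odd k → k + 4 ≤ p → E.coeff k = 0) ∧
      (∀ g, 1 ≤ g → 2 * g + 3 ≤ p → (p : ℤ) ∣ (_root_.bernoulli (p - 1 - 2 * g)).num →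
        E.coeff (2 * g) = 0) := by
  obtain ⟨E, h1, h2, h3, h4, h5⟩ := MP_a3a416_nt.BB.exists_E p hp5
  refine ⟨E, ⟨h1, h2, ?_⟩, h4, h5⟩
  rw [taylor_apply, C_1]
  exact h3

private theorem natDegree_Ph_lt {p : ℕ} [Fact p.Prime] {E : (ZMod p)[X]} (hE : E.natDegree < p)
    (M0 : Finset ℕ) (G : ℕ → (ZMod p)[X]) {D : ℕ} (hdeg : ∀ m, (G m).natDegree < D) :
    (Ph E M0 G).natDegree + 1 < D + p := by
  have hD : 0 < D := lt_of_le_of_lt (Nat.zero_le _) (hdeg 0)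
  have hp : 0 < p := lt_of_le_of_lt (Nat.zero_le _) hE
  have h : (Ph E M0 G).natDegree ≤ (D - 1) + (p - 1) := by
    unfold Ph
    apply natDegree_sum_le_of_forall_le
    intro m _
    refine natDegree_mul_le.trans ?_
    have h1 := hdeg m
    have h2 := natDegree_EM hE m
    omega
  omega

/-- the numerical facts about the parameters -/
private theorem params {b W : ℕ} (hb0 : 0 < b) (h1 : 20 * b ≤ W ^ 2)
    (h2 : W ^ 3 ≤ b ^ 2) (h3 : 2 * W ≤ b) :
    5 ≤ W ∧ 1 ≤ W ^ 2 / (20 * b) ∧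
    10 * (4 * (W ^ 2 / (20 * b)) * (b / W + 1)) ≤ 3 * W ∧
    8000 * (W ^ 2 / (20 * b)) ^ 3 ≤ b ∧
    200 * ((W ^ 2 / (20 * b)) * (4 * (W ^ 2 / (20 * b)) * (b / W + 1))) ≤ 3 * b ∧
    b + 1 ≤ (b / W + 1) * W := by
  have hW5 : 5 ≤ W := by
    by_contra hlt
    push Not at hlt
    have h4 : W ≤ 4 := by omega
    have h5 : W ^ 2 ≤ 4 ^ 2 := Nat.pow_le_pow_left h4 2
    omega
  obtain ⟨F, hF⟩ : ∃ F, F = W ^ 2 / (20 * b) := ⟨_, rfl⟩
  obtain ⟨N, hN⟩ : ∃ N, N = b / W + 1 := ⟨_, rfl⟩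
  rw [← hF, ← hN]
  have hF1 : 1 ≤ F := by
    rw [hF]
    exact (Nat.le_div_iff_mul_le (by omega)).mpr (by omega)
  have hFle : F * (20 * b) ≤ W ^ 2 := by
    rw [hF]; exact Nat.div_mul_le_self _ _
  have hNle : N * W ≤ b + W := by
    rw [hN, add_mul, one_mul]
    have := Nat.div_mul_le_self b W
    omega
  have hNge : b + 1 ≤ N * W := by
    rw [hN]
    have := Nat.lt_div_mul_add (a := b) (show 0 < W by omega)
    rw [add_mul, one_mul]
    omega
  have hD : 10 * (4 * F * N) ≤ 3 * W := by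
    have hWpos : 0 < W := by omega
    have e1 : 2 * (N * W) ≤ 3 * b := by omega
    have e2 : (10 * (4 * F * N)) * W ≤ (3 * W) * W := by
      calc (10 * (4 * F * N)) * W = 20 * F * (2 * (N * W)) := by ring
        _ ≤ 20 * F * (3 * b) := Nat.mul_le_mul_left _ e1
        _ = 3 * (F * (20 * b)) := by ring
        _ ≤ 3 * W ^ 2 := Nat.mul_le_mul_left _ hFle
        _ = (3 * W) * W := by ring
    exact Nat.le_of_mul_le_mul_right e2 hWpos
  refine ⟨hW5, hF1, hD, ?_, ?_, hNge⟩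
  · have e1 : (F * (20 * b)) ^ 3 ≤ (W ^ 2) ^ 3 := Nat.pow_le_pow_left hFle 3
    have e2 : (W ^ 3) ^ 2 ≤ (b ^ 2) ^ 2 := Nat.pow_le_pow_left h2 2
    have e3 : (8000 * F ^ 3) * b ^ 3 ≤ b * b ^ 3 := by
      calc (8000 * F ^ 3) * b ^ 3 = (F * (20 * b)) ^ 3 := by ring
        _ ≤ (W ^ 2) ^ 3 := e1
        _ = (W ^ 3) ^ 2 := by ring
        _ ≤ (b ^ 2) ^ 2 := e2
        _ = b * b ^ 3 := by ring
    exact Nat.le_of_mul_le_mul_right e3 (by positivity)
  · have e1 : (200 * (F * (4 * F * N))) * b ≤ (3 * b) * b := by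
      calc (200 * (F * (4 * F * N))) * b = (F * (20 * b)) * (10 * (4 * F * N)) := by ring
        _ ≤ W ^ 2 * (3 * W) := Nat.mul_le_mul hFle hD
        _ = 3 * W ^ 3 := by ring
        _ ≤ 3 * b ^ 2 := Nat.mul_le_mul_left _ h2
        _ = (3 * b) * b := by ring
    exact Nat.le_of_mul_le_mul_right e1 hb0

theorem block {p b W : ℕ} (hp : p.Prime) (hb : b + 3 ≤ p) (h1 : 20 * b ≤ W ^ 2)
    (h2 : W ^ 3 ≤ b ^ 2) (h3 : 2 * W ≤ b) : W ^ 2 / (20 * b) ≤ 16 * (good p b W).card := by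
  classical
  have : Fact p.Prime := ⟨hp⟩
  rcases Nat.eq_zero_or_pos b with hb0 | hb0
  · subst hb0
    simp
  obtain ⟨hW5, hF1, hD10, hF3, hFD, hNW⟩ := params hb0 h1 h2 h3
  obtain ⟨F, hF⟩ : ∃ F, F = W ^ 2 / (20 * b) := ⟨_, rfl⟩
  obtain ⟨N, hN⟩ : ∃ N, N = b / W + 1 := ⟨_, rfl⟩
  rw [← hF] at hF1 hD10 hF3 hFD ⊢
  rw [← hN] at hD10 hFD hNW
  obtain ⟨D, hDdef⟩ : ∃ D, D = 4 * F * N := ⟨_, rfl⟩
  rw [← hDdef] at hD10 hFD
  have hp5 : 5 ≤ p := by omega
  have hodd : Odd p := hp.odd_of_ne_two (by omega)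
  have hNp : N ≤ p := by
    rw [hN]
    have := Nat.div_le_self b W
    omega
  set M0 : Finset ℕ := (Icc 1 F).filter (fun m => F ≤ 8 * m.totient) with hM0
  set Lam : Finset ℕ := (good p b W).image (fun k => p - 1 - k) with hLam
  have hphi : F ≤ 8 * M0.card := many_phi F
  have hLc : Lam.card ≤ (good p b W).card := card_image_le
  by_contra hcon
  push Not at hcon
  have hlt : 2 * Lam.card < M0.card := by omega
  have hM0mem : ∀ m ∈ M0, 1 ≤ m ∧ m ≤ F ∧ F ≤ 8 * m.totient := by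
    intro m hm
    rw [hM0, mem_filter, mem_Icc] at hm
    exact ⟨hm.1.1, hm.1.2, hm.2⟩
  have hFF3 : F ≤ F ^ 3 := Nat.le_self_pow (by norm_num) F
  have hFp : F < p := by omega
  obtain ⟨G, hG1, -, hG3, hG4, hG5⟩ := exists_aux (p := p) M0 Lam F N
    (fun m hm => ⟨(hM0mem m hm).1, (hM0mem m hm).2.1⟩) (by rw [hN]; exact Nat.succ_le_succ (Nat.zero_le _)) hlt
  have hG3' : ∀ m, (G m).natDegree < D := by
    intro m
    rw [hDdef]
    exact hG3 m
  obtain ⟨E, hE, hEodd, hEeven⟩ := exists_isE (p := p) hp5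
  -- the coefficients of `E` in the block
  have hE0 : ∀ l, (p - 1 - b) ≤ l → l < (p - 1 - b) + (2 * W - 1) → l ∉ Lam → E.coeff l = 0 := by
    intro l hl1 hl2 hl3
    rcases Nat.even_or_odd l with he | ho
    · obtain ⟨g, hg⟩ := he
      have hg2 : l = 2 * g := by omega
      subst hg2
      by_cases hdiv : (p : ℤ) ∣ (_root_.bernoulli (p - 1 - 2 * g)).num
      · exact hEeven g (by omega) (by omega) hdiv
      · exfalso
        apply hl3
        rw [hLam, mem_image]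
        refine ⟨p - 1 - 2 * g, ?_, by omega⟩
        unfold good
        rw [mem_filter, mem_range]
        refine ⟨by omega, ?_, by omega, hdiv⟩
        obtain ⟨j, hj⟩ := hodd
        exact ⟨j - g, by omega⟩
    · refine hEodd l ho ?_
      obtain ⟨j, hj⟩ := hodd
      obtain ⟨i, hi⟩ := ho
      omega
  have hrows := rows (p := p) hE (M0 := M0) (Lam := Lam) (G := G) (N := N) (D := D)
    (L := 2 * W - 1) (T := W) (e := p - 1 - b)
    (fun m hm => ⟨(hM0mem m hm).1, lt_of_le_of_lt (hM0mem m hm).2.1 hFp⟩) hG3' hG4 hG5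
    (by omega) (by omega) hE0
  have hzero := rows_zero (p := p) (Ph E M0 G) (D := D) (R := p - 1 - b + D) (N := N) (T := W)
    (natDegree_Ph_lt hE.deg M0 G hG3') (by omega) hNp (by omega) (by omega) hrows
  have e1 : 6 * F ^ 3 + 2 * F * D ≤ b := by
    have e2 : 2 * F * D = 2 * (F * D) := by ring
    rw [e2]
    omega
  have e3 : 8 * F * D + F ^ 3 ≤ b := by
    have e4 : 8 * F * D = 8 * (F * D) := by ring
    rw [e4]
    omega
  exact zero_est (p := p) hE (F := F) (D := D) (R := p - 1 - b + D) M0 hM0mem G hG1 hG3'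
    (by omega) hFp (by omega) (by omega) hzero

end MP_a3a416_nt.WW
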