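import Mathlib

/-!
# Regular indices in short intervals, for every prime: definitions

Paper proof: `WW_proof.md` (helper26).  `K = ZMod p`; shifts of polynomials are `Polynomial.taylor`.
-/

namespace MP_a3a416_nt.WW

open Polynomial Finset

/-- `{1 ≤ i ≤ m, (i,m) = 1}` -/
def cop (m : ℕ) : Finset ℕ := (Icc 1 m).filter (fun i => Nat.Coprime i m)

/-- the residue `i/m` -/
noncomputable def fr (p : ℕ) [Fact p.Prime] (i m : ℕ) : ZMod p := (i : ZMod p) / (m : ZMod p)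

/-- `E(X+1) - E(X) = (X+1)^(p-2)`, degree `< p`, `E(0) = 0`. -/
structure IsE {p : ℕ} [Fact p.Prime] (E : (ZMod p)[X]) : Prop where
  deg : E.natDegree < p
  zero : E.coeff 0 = 0
  diff : taylor 1 E - E = (X + 1) ^ (p - 2)

/-- Jordan totient: `∑_{q ∣ m} μ(m/q) q^(l+1)` -/
noncomputable def Jt (p : ℕ) [Fact p.Prime] (l m : ℕ) : ZMod p :=
  ∑ q ∈ m.divisors, ((ArithmeticFunction.moebius (m / q) : ℤ) : ZMod p) * (q : ZMod p) ^ (l + 1)

/-- `E_m = ∑_{q ∣ m} μ(m/q) q E(qX)` -/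
noncomputable def EM {p : ℕ} [Fact p.Prime] (E : (ZMod p)[X]) (m : ℕ) : (ZMod p)[X] :=
  ∑ q ∈ m.divisors, C (((ArithmeticFunction.moebius (m / q) : ℤ) : ZMod p) * (q : ZMod p)) *
    E.comp (C (q : ZMod p) * X)

/-- `R_m = ∑_{i ∈ cop m} (X + i/m)^(p-2)` -/
noncomputable def RM (p : ℕ) [Fact p.Prime] (m : ℕ) : (ZMod p)[X] :=
  ∑ i ∈ cop m, (X + C (fr p i m)) ^ (p - 2)

/-- `Φ = ∑_{m ∈ M₀} G_m E_m` -/
noncomputable def Ph {p : ℕ} [Fact p.Prime] (E : (ZMod p)[X]) (M0 : Finset ℕ) (G : ℕ → (ZMod p)[X]) :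
    (ZMod p)[X] := ∑ m ∈ M0, G m * EM E m

/-- the matrix `g_i(X+j)` -/
noncomputable def CM {p : ℕ} [Fact p.Prime] {r : ℕ} (g : Fin r → (ZMod p)[X]) :
    Matrix (Fin r) (Fin r) (ZMod p)[X] := fun j i => taylor ((j : ℕ) : ZMod p) (g i)

/-- the number of the residues `-i/m`, `i ∈ cop m`, equal to `α` -/
noncomputable def jc (p : ℕ) [Fact p.Prime] (m : ℕ) (α : ZMod p) : ℕ :=
  by classical exact ((cop m).filter (fun i => α = - fr p i m)).card

/-- polynomials as rational functions -/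
noncomputable abbrev rf (p : ℕ) [Fact p.Prime] : (ZMod p)[X] →+* RatFunc (ZMod p) :=
  algebraMap (ZMod p)[X] (RatFunc (ZMod p))

/-- the even `k` with `b - 2W < k ≤ b` and `p ∤ B_k` -/
noncomputable def good (p b W : ℕ) : Finset ℕ := by
  classical
  exact (range (b + 1)).filter
      (fun k => Even k ∧ b < k + 2 * W ∧ ¬ (p : ℤ) ∣ (_root_.bernoulli k).num)

end MP_a3a416_nt.WW
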