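import Pool.Agent.Lib.MP_a3a416_nt.WW.Block

/-!
# WW-Main : all windows
-/

namespace MP_a3a416_nt.WW

open Finset

private theorem mem_good {p b W k : ℕ} : k ∈ good p b W ↔
    k ≤ b ∧ Even k ∧ b < k + 2 * W ∧ ¬ (p : ℤ) ∣ (_root_.bernoulli k).num := by
  unfold good
  rw [mem_filter, mem_range, Nat.lt_succ_iff]

private theorem good_mono {p b V W : ℕ} (h : V ≤ W) : good p b V ⊆ good p b W := by
  intro k hk
  rw [mem_good] at hk ⊢
  exact ⟨hk.1, hk.2.1, by omega, hk.2.2.2⟩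

private theorem blocks (p b V : ℕ) : ∀ J : ℕ, 2 * J * V ≤ b →
    ∑ j ∈ range J, (good p (b - 2 * j * V) V).card ≤ (good p b (J * V)).card := by
  intro J
  induction J with
  | zero => simp
  | succ J ih =>
    intro hJ
    have h0 : 2 * (J + 1) * V = 2 * J * V + 2 * V := by ring
    have h1 := ih (by omega)
    rw [sum_range_succ]
    have hd : Disjoint (good p b (J * V)) (good p (b - 2 * J * V) V) := by
      rw [Finset.disjoint_left]
      intro k hk hk'
      rw [mem_good] at hk hk'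
      have h2 : 2 * (J * V) = 2 * J * V := by ring
      omega
    have hs : good p b (J * V) ∪ good p (b - 2 * J * V) V ⊆ good p b ((J + 1) * V) := by
      intro k hk
      have h2 : 2 * (J * V) = 2 * J * V := by ring
      have h3 : 2 * ((J + 1) * V) = 2 * J * V + 2 * V := by ring
      rw [mem_union, mem_good, mem_good] at hk
      rw [mem_good]
      rcases hk with hk | hk
      · exact ⟨hk.1, hk.2.1, by omega, hk.2.2.2⟩
      · exact ⟨by omega, hk.2.1, by omega, hk.2.2.2⟩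
    have h4 := card_le_card hs
    rw [card_union_of_disjoint hd] at h4
    omega

private theorem block_real {p b W : ℕ} (hp : p.Prime) (hb0 : 0 < b) (hb : b + 3 ≤ p)
    (h1 : 20 * b ≤ W ^ 2) (h2 : W ^ 3 ≤ b ^ 2) (h3 : 2 * W ≤ b) :
    (W : ℝ) ^ 2 / (640 * b) ≤ ((good p b W).card : ℝ) := by
  have h := block hp hb h1 h2 h3
  obtain ⟨F, hF⟩ : ∃ F, F = W ^ 2 / (20 * b) := ⟨_, rfl⟩
  rw [← hF] at h
  have hF1 : 1 ≤ F := by
    rw [hF]
    exact (Nat.le_div_iff_mul_le (by omega)).mpr (by omega)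
  have hlt : W ^ 2 < (F + 1) * (20 * b) := by
    rw [hF, add_mul, one_mul]
    exact Nat.lt_div_mul_add (by omega)
  have hbr : (0 : ℝ) < b := by exact_mod_cast hb0
  have hlt' : (W : ℝ) ^ 2 < ((F : ℝ) + 1) * (20 * b) := by exact_mod_cast hlt
  have hF1' : (1 : ℝ) ≤ F := by exact_mod_cast hF1
  have h' : (F : ℝ) ≤ 16 * ((good p b W).card : ℝ) := by exact_mod_cast h
  rw [div_le_iff₀ (by positivity)]
  nlinarith

theorem main {p b W : ℕ} (hp : p.Prime) (hb1 : 1 ≤ b) (hb : b + 3 ≤ p) (h1 : 400 * √(b : ℝ) ≤ W)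
    (h3 : 2 * W ≤ b) :
    min ((W : ℝ) ^ 2 / b) (W / (b : ℝ) ^ ((1 : ℝ) / 3)) / 6000 ≤ ((good p b W).card : ℝ) := by
  have hbr : (1 : ℝ) ≤ b := by exact_mod_cast hb1
  have hb0 : (0 : ℝ) < b := by linarith
  have hW2 : 160000 * (b : ℝ) ≤ (W : ℝ) ^ 2 := by
    have h := Real.sqrt_nonneg (b : ℝ)
    have h' := Real.sq_sqrt hb0.le
    nlinarith
  have h3' : 2 * (W : ℝ) ≤ b := by exact_mod_cast h3
  by_cases hW : W ^ 3 ≤ b ^ 2
  · have hn : 20 * b ≤ W ^ 2 := by
      have : (20 : ℝ) * b ≤ (W : ℝ) ^ 2 := by linarith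
      exact_mod_cast this
    have h := block_real hp hb1 hb hn hW h3
    refine le_trans ?_ h
    have h4 : min ((W : ℝ) ^ 2 / b) (W / (b : ℝ) ^ ((1 : ℝ) / 3)) ≤ (W : ℝ) ^ 2 / b := min_le_left _ _
    have h5 : 0 ≤ (W : ℝ) ^ 2 / b := by positivity
    have h6 : (W : ℝ) ^ 2 / (640 * b) = (W : ℝ) ^ 2 / b / 640 := by
      field_simp
    rw [h6]
    linarith
  · push Not at hW
    obtain ⟨t, ht⟩ : ∃ t : ℝ, t = (b : ℝ) ^ ((1 : ℝ) / 3) := ⟨_, rfl⟩
    rw [← ht]
    have ht0 : 0 < t := by rw [ht]; positivity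
    have ht3 : t ^ 3 = b := by
      rw [ht, ← Real.rpow_natCast, ← Real.rpow_mul hb0.le]
      norm_num
    have hbig : (640000 : ℝ) ≤ b := by nlinarith
    have ht86 : 86 ≤ t := by
      by_contra hlt
      push Not at hlt
      have : t ^ 3 < 86 ^ 3 := pow_lt_pow_left₀ hlt ht0.le (by norm_num)
      rw [ht3] at this
      linarith
    obtain ⟨V, hV⟩ : ∃ V : ℕ, V = ⌊t ^ 2 / 2⌋₊ := ⟨_, rfl⟩
    have hV1 : (V : ℝ) ≤ t ^ 2 / 2 := by rw [hV]; exact Nat.floor_le (by positivity)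
    have hV2 : t ^ 2 / 2 < V + 1 := by rw [hV]; exact Nat.lt_floor_add_one _
    have hV3 : 0.49 * t ^ 2 ≤ V := by nlinarith
    have hV0 : (0 : ℝ) < V := by nlinarith [sq_nonneg t]
    have hV0' : 0 < V := by exact_mod_cast hV0
    have hVsq : 0.24 * t ^ 4 ≤ (V : ℝ) ^ 2 := by
      have : (0.49 * t ^ 2) ^ 2 ≤ (V : ℝ) ^ 2 := pow_le_pow_left₀ (by positivity) hV3 2
      nlinarith [sq_nonneg (t ^ 2)]
    have hV20 : 20 * (b : ℝ) ≤ (V : ℝ) ^ 2 := by
      rw [← ht3]
      have : 0 ≤ t ^ 3 := by positivity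
      nlinarith
    have hVcube : 4 * (V : ℝ) ^ 3 ≤ (b : ℝ) ^ 2 := by
      have : (V : ℝ) ^ 3 ≤ (t ^ 2 / 2) ^ 3 := pow_le_pow_left₀ hV0.le hV1 3
      have e : (b : ℝ) ^ 2 = t ^ 6 := by rw [← ht3]; ring
      have e2 : (t ^ 2 / 2) ^ 3 = t ^ 6 / 8 := by ring
      have e3 : 0 ≤ t ^ 6 := by positivity
      rw [e]
      linarith
    have hWt : t ^ 2 < (W : ℝ) := by
      by_contra hlt
      push Not at hlt
      have h4 : (W : ℝ) ^ 3 ≤ (t ^ 2) ^ 3 := pow_le_pow_left₀ (by positivity) hlt 3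
      have e : (b : ℝ) ^ 2 = (t ^ 2) ^ 3 := by rw [← ht3]; ring
      have h5 : (b : ℝ) ^ 2 < (W : ℝ) ^ 3 := by exact_mod_cast hW
      linarith
    have h2V : 2 * V ≤ W := by
      have : 2 * (V : ℝ) ≤ W := by linarith
      exact_mod_cast this
    obtain ⟨J, hJ⟩ : ∃ J : ℕ, J = W / (2 * V) := ⟨_, rfl⟩
    have hJ1 : 1 ≤ J := by
      rw [hJ]; exact (Nat.le_div_iff_mul_le (by omega)).mpr (by omega)
    have hJ2 : J * (2 * V) ≤ W := by rw [hJ]; exact Nat.div_mul_le_self _ _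
    have hJ3 : W < (J + 1) * (2 * V) := by
      rw [hJ, add_mul, one_mul]
      exact Nat.lt_div_mul_add (by omega)
    have hJ4 : (W : ℝ) ≤ 4 * J * V := by
      have h4 : (W : ℝ) < ((J : ℝ) + 1) * (2 * V) := by exact_mod_cast hJ3
      have h5 : (1 : ℝ) ≤ J := by exact_mod_cast hJ1
      nlinarith
    have hJV : J * V ≤ W := by
      have : J * (2 * V) = 2 * (J * V) := by ring
      omega
    have hJVb : 2 * J * V ≤ b := by
      have : J * (2 * V) = 2 * J * V := by ring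
      omega
    have hsum := blocks p b V J hJVb
    have hmono := card_le_card (good_mono (p := p) (b := b) hJV)
    have hlow : ∀ j ∈ range J, (V : ℝ) ^ 2 / (640 * b) ≤ ((good p (b - 2 * j * V) V).card : ℝ) := by
      intro j hj
      rw [mem_range] at hj
      have hjV : 2 * j * V + 2 * V ≤ W := by
        calc 2 * j * V + 2 * V = (j + 1) * (2 * V) := by ring
          _ ≤ J * (2 * V) := Nat.mul_le_mul_right _ hj
          _ ≤ W := hJ2
      obtain ⟨c, hc⟩ : ∃ c, c = b - 2 * j * V := ⟨_, rfl⟩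
      rw [← hc]
      have hcb : c ≤ b := by omega
      have hc2 : b ≤ 2 * c := by omega
      have hc0 : 0 < c := by omega
      have k1 : 20 * c ≤ V ^ 2 := by
        have : 20 * b ≤ V ^ 2 := by exact_mod_cast hV20
        omega
      have k2 : V ^ 3 ≤ c ^ 2 := by
        have k3 : 4 * V ^ 3 ≤ b ^ 2 := by exact_mod_cast hVcube
        have k4 : b ^ 2 ≤ (2 * c) ^ 2 := Nat.pow_le_pow_left hc2 2
        have k5 : (2 * c) ^ 2 = 4 * c ^ 2 := by ring
        omega
      have k3 : 2 * V ≤ c := by omega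
      have h := block_real hp hc0 (by omega) k1 k2 k3
      refine le_trans ?_ h
      have hcr : (0 : ℝ) < c := by exact_mod_cast hc0
      have hcbr : (c : ℝ) ≤ b := by exact_mod_cast hcb
      exact div_le_div_of_nonneg_left (by positivity) (by positivity) (by linarith)
    have h7 : (J : ℝ) * ((V : ℝ) ^ 2 / (640 * b)) ≤ ((good p b W).card : ℝ) := by
      have h8 : ∑ j ∈ range J, (V : ℝ) ^ 2 / (640 * b) ≤
          ∑ j ∈ range J, ((good p (b - 2 * j * V) V).card : ℝ) := sum_le_sum hlow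
      rw [sum_const, card_range, nsmul_eq_mul] at h8
      have h9 : (∑ j ∈ range J, ((good p (b - 2 * j * V) V).card : ℝ)) ≤
          ((good p b W).card : ℝ) := by
        exact_mod_cast hsum.trans hmono
      linarith
    refine le_trans ?_ h7
    have h10 : min ((W : ℝ) ^ 2 / b) (W / t) ≤ W / t := min_le_right _ _
    have h11 : (W : ℝ) / t / 6000 ≤ (J : ℝ) * ((V : ℝ) ^ 2 / (640 * b)) := by
      rw [← ht3]
      rw [div_div, mul_div_assoc', div_le_div_iff₀ (by positivity) (by positivity)]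
      have hW0 : (0 : ℝ) ≤ W := by positivity
      have s1 : (W : ℝ) * V ≤ 4 * (J * (V : ℝ) ^ 2) := by nlinarith
      have s2 : (W : ℝ) * (0.49 * t ^ 2) ≤ W * V := mul_le_mul_of_nonneg_left hV3 hW0
      have s3 : (W : ℝ) * (0.49 * t ^ 2) ≤ 4 * (J * (V : ℝ) ^ 2) := s2.trans s1
      have s4 : (W : ℝ) * (0.49 * t ^ 2) * t ≤ 4 * (J * (V : ℝ) ^ 2) * t :=
        mul_le_mul_of_nonneg_right s3 ht0.le
      have s5 : 0 ≤ (W : ℝ) * t ^ 3 := by positivity
      have e1 : (W : ℝ) * (640 * t ^ 3) = 640 * (W * t ^ 3) := by ring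
      have e2 : (W : ℝ) * (0.49 * t ^ 2) * t = 0.49 * (W * t ^ 3) := by ring
      have e3 : (J : ℝ) * (V : ℝ) ^ 2 * (t * 6000) = 1500 * (4 * (J * (V : ℝ) ^ 2) * t) := by ring
      rw [e1, e3]
      rw [e2] at s4
      linarith
    linarith

end MP_a3a416_nt.WW
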