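import Pool.Agent.Lib.MP_a3a416_nt.WW.Defs

/-!
# WW-Mob : the functions `E_m`

(2.1) `coeff_l E_m = J_l(m) coeff_l E`, `natDegree E_m < p`.
(2.2) `E_m(X+1) - E_m(X) = R_m(X)`.  Proof: `E(X+q) - E(X) = ∑_{i=1}^q (X+i)^(p-2)` (iterate `hE.diff`; cf.
`BB.E_comp_nat` in `BB/JetsModP.lean`).  Substitute `qX`: `q (E(qX+q) - E(qX)) = ∑_{i=1}^q q (qX+i)^(p-2)
= ∑_{i=1}^q (X + i/q)^(p-2)` because `q^(p-1) = 1` (`1 ≤ q < p`).  Every `i/q`, `1 ≤ i ≤ q`, is in lowest
terms `i'/m'` with `m' ∣ q`, `i' ∈ cop m'`, so this is `∑_{m' ∣ q} R_{m'}`; Moebius inversion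
(`ArithmeticFunction.sum_eq_iff_sum_mul_moebius_eq` or `..._on`; note `E_m(X+1) - E_m(X)
= ∑_{q ∣ m} μ(m/q) q (E(qX+q) - E(qX))`).
(2.3) `(X+a)^2 (X+a)^(p-2) = (X+a)^p = X^p + a`.
-/

namespace MP_a3a416_nt.WW

open Polynomial Finset

variable {p : ℕ} [Fact p.Prime]

theorem coeff_EM (E : (ZMod p)[X]) (m l : ℕ) : (EM E m).coeff l = Jt p l m * E.coeff l := by
  rw [EM, Jt, finsetSum_coeff, Finset.sum_mul]
  refine Finset.sum_congr rfl fun q _ => ?_
  rw [coeff_C_mul, comp_C_mul_X_coeff]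
  ring

theorem natDegree_EM {E : (ZMod p)[X]} (hE : E.natDegree < p) (m : ℕ) : (EM E m).natDegree < p := by
  refine lt_of_le_of_lt ?_ hE
  rw [natDegree_le_iff_coeff_eq_zero]
  intro l hl
  rw [coeff_EM, coeff_eq_zero_of_natDegree_lt hl, mul_zero]

/-- iterated difference equation -/
private theorem E_nat {E : (ZMod p)[X]} (hE : IsE E) (q : ℕ) :
    taylor (q : ZMod p) E = E + ∑ i ∈ Finset.Icc 1 q, (X + C (i : ZMod p)) ^ (p - 2) := by
  have h1 : taylor 1 E = E + (X + 1) ^ (p - 2) := by rw [← hE.diff]; ring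
  induction q with
  | zero => simp
  | succ q ih =>
    rw [Finset.sum_Icc_succ_top (by omega), ← add_assoc, ← ih]
    have h2 : taylor ((q + 1 : ℕ) : ZMod p) E = taylor (q : ZMod p) (taylor 1 E) := by
      rw [taylor_taylor]
      congr 1
      push_cast
      ring_nf
    rw [h2, h1, map_add, taylor_pow, map_add, taylor_X]
    congr 2
    have h3 : taylor (q : ZMod p) (1 : (ZMod p)[X]) = 1 := taylor_one _
    rw [h3]
    push_cast
    rw [C_add, C_1]
    ring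

theorem cast_ne_zero' {q : ℕ} (hq : 1 ≤ q) (hqp : q < p) : (q : ZMod p) ≠ 0 := by
  rw [Ne, ZMod.natCast_eq_zero_iff]
  intro h
  exact absurd (Nat.le_of_dvd (by omega) h) (by omega)

/-- `∑_{i=1}^q (X + i/q)^(p-2) = ∑_{m ∣ q} R_m` -/
private theorem sum_RM {q : ℕ} (hq : 1 ≤ q) (hqp : q < p) :
    ∑ m ∈ q.divisors, RM p m = ∑ i ∈ Finset.Icc 1 q, (X + C (fr p i q)) ^ (p - 2) := by
  classical
  unfold RM
  rw [Finset.sum_sigma']
  refine Finset.sum_bij' (fun x _ => x.2 * (q / x.1)) (fun i _ => ⟨q / Nat.gcd i q, i / Nat.gcd i q⟩) ?_ ?_ ?_ ?_ ?_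
  · rintro ⟨m, i⟩ h
    simp only [Finset.mem_sigma, Nat.mem_divisors, cop, Finset.mem_filter, Finset.mem_Icc] at h ⊢
    obtain ⟨⟨⟨k, rfl⟩, _⟩, ⟨hi1, him⟩, _⟩ := h
    have hm0 : 0 < m := by omega
    have hk0 : 0 < k := by
      rcases Nat.eq_zero_or_pos k with h | h
      · subst h; simp at hq
      · exact h
    rw [Nat.mul_div_cancel_left _ hm0]
    exact ⟨Nat.mul_pos (by omega) hk0, Nat.mul_le_mul_right _ him⟩
  · intro i hi
    simp only [Finset.mem_sigma, Nat.mem_divisors, cop, Finset.mem_filter, Finset.mem_Icc] at hi ⊢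
    have hg : 0 < Nat.gcd i q := Nat.gcd_pos_of_pos_left _ (by omega)
    refine ⟨⟨Nat.div_dvd_of_dvd (Nat.gcd_dvd_right _ _), by omega⟩, ⟨?_, ?_⟩, ?_⟩
    · exact Nat.div_pos (Nat.le_of_dvd (by omega) (Nat.gcd_dvd_left _ _)) hg
    · exact Nat.div_le_div_right hi.2
    · exact Nat.coprime_div_gcd_div_gcd hg
  · rintro ⟨m, i⟩ h
    simp only [Finset.mem_sigma, Nat.mem_divisors, cop, Finset.mem_filter, Finset.mem_Icc] at h ⊢
    obtain ⟨⟨⟨k, rfl⟩, _⟩, ⟨hi1, him⟩, hc⟩ := h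
    have hm0 : 0 < m := by omega
    have hk0 : 0 < k := by
      rcases Nat.eq_zero_or_pos k with h | h
      · subst h; simp at hq
      · exact h
    rw [Nat.mul_div_cancel_left _ hm0]
    have hg : Nat.gcd (i * k) (m * k) = k := by
      rw [Nat.gcd_mul_right, hc, one_mul]
    rw [hg, Nat.mul_div_cancel _ hk0, Nat.mul_div_cancel _ hk0]
  · intro i hi
    simp only [Finset.mem_Icc] at hi
    have hg : 0 < Nat.gcd i q := Nat.gcd_pos_of_pos_left _ (by omega)
    simp only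
    have h1 : q / (q / Nat.gcd i q) = Nat.gcd i q := Nat.div_div_self (Nat.gcd_dvd_right _ _) (by omega)
    rw [h1, Nat.div_mul_cancel (Nat.gcd_dvd_left _ _)]
  · rintro ⟨m, i⟩ h
    simp only [Finset.mem_sigma, Nat.mem_divisors, cop, Finset.mem_filter, Finset.mem_Icc] at h ⊢
    obtain ⟨⟨⟨k, rfl⟩, _⟩, ⟨hi1, him⟩, hc⟩ := h
    have hm0 : 0 < m := by omega
    have hk0 : 0 < k := by
      rcases Nat.eq_zero_or_pos k with h | h
      · subst h; simp at hq
      · exact h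
    rw [Nat.mul_div_cancel_left _ hm0]
    have h1 : (m : ZMod p) ≠ 0 := cast_ne_zero' (by omega) (lt_of_le_of_lt (Nat.le_mul_of_pos_right _ hk0) hqp)
    have h2 : (k : ZMod p) ≠ 0 := cast_ne_zero' (by omega) (lt_of_le_of_lt (Nat.le_mul_of_pos_left _ hm0) hqp)
    have h3 : fr p i m = fr p (i * k) (m * k) := by
      unfold fr
      push_cast
      field_simp
    rw [h3]

/-- the difference equation of `q E(qX)` -/
private theorem diff_q {E : (ZMod p)[X]} (hE : IsE E) {q : ℕ} (hq : 1 ≤ q) (hqp : q < p) :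
    C (q : ZMod p) * (taylor 1 (E.comp (C (q : ZMod p) * X)) - E.comp (C (q : ZMod p) * X)) =
      ∑ m ∈ q.divisors, RM p m := by
  have hq0 := cast_ne_zero' hq hqp
  have h2p : 2 ≤ p := (Fact.out : p.Prime).two_le
  have h1 : taylor 1 (E.comp (C (q : ZMod p) * X)) = (taylor (q : ZMod p) E).comp (C (q : ZMod p) * X) := by
    rw [taylor_apply, taylor_apply, comp_assoc, comp_assoc]
    congr 1
    simp [mul_add]
  rw [h1, E_nat hE, add_comp, add_sub_cancel_left, sum_RM hq hqp]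
  rw [← Polynomial.coe_compRingHom_apply, map_sum, Finset.mul_sum]
  refine Finset.sum_congr rfl fun i _ => ?_
  rw [map_pow, Polynomial.coe_compRingHom_apply, add_comp, X_comp, C_comp]
  have h2 : (C (q : ZMod p) * X + C (i : ZMod p) : (ZMod p)[X]) =
      C (q : ZMod p) * (X + C (fr p i q)) := by
    rw [mul_add, ← C_mul, fr, mul_div_cancel₀ _ hq0]
  rw [h2, mul_pow, ← mul_assoc, ← C_pow, ← C_mul]
  have h3 : (q : ZMod p) * (q : ZMod p) ^ (p - 2) = 1 := by
    rw [← pow_succ', show p - 2 + 1 = p - 1 by omega, ZMod.pow_card_sub_one_eq_one hq0]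
  rw [h3, C_1, one_mul]

theorem taylor_EM {E : (ZMod p)[X]} (hE : IsE E) {m : ℕ} (hm : 1 ≤ m) (hmp : m < p) :
    taylor 1 (EM E m) = EM E m + RM p m := by
  classical
  set P : ℕ → (ZMod p)[X] := fun q =>
    C (q : ZMod p) * (taylor 1 (E.comp (C (q : ZMod p) * X)) - E.comp (C (q : ZMod p) * X)) with hP
  have hdiff : taylor 1 (EM E m) - EM E m =
      ∑ q ∈ m.divisors, ((ArithmeticFunction.moebius (m / q) : ℤ) : (ZMod p)[X]) * P q := by
    rw [EM, map_sum, ← Finset.sum_sub_distrib]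
    refine Finset.sum_congr rfl fun q _ => ?_
    rw [taylor_mul, taylor_C, hP]
    simp only [C_mul]
    have h1 : (C ((ArithmeticFunction.moebius (m / q) : ℤ) : ZMod p) : (ZMod p)[X]) =
        ((ArithmeticFunction.moebius (m / q) : ℤ) : (ZMod p)[X]) := by simp
    rw [h1]
    ring
  have hmob := (ArithmeticFunction.sum_eq_iff_sum_mul_moebius_eq_on
    (R := (ZMod p)[X]) (f := fun q => RM p q) (g := P) {n : ℕ | 0 < n ∧ n < p}
    (fun a b hab hb => ⟨Nat.pos_of_dvd_of_pos hab hb.1,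
      lt_of_le_of_lt (Nat.le_of_dvd hb.1 hab) hb.2⟩)).1
    (fun q hq hqs => (diff_q hE hq hqs.2).symm) m hm ⟨hm, hmp⟩
  rw [← sub_eq_iff_eq_add', hdiff, ← hmob]
  rw [Nat.sum_divisorsAntidiagonal' (fun a b => ((ArithmeticFunction.moebius a : ℤ) : (ZMod p)[X]) * P b)]

theorem sq_mul_pow (a : ZMod p) :
    (X + C a) ^ 2 * (X + C a) ^ (p - 2) = (X ^ p + C a : (ZMod p)[X]) := by
  have h2p : 2 ≤ p := (Fact.out : p.Prime).two_le
  have : CharP (ZMod p)[X] p := Polynomial.charP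
  rw [← pow_add, show 2 + (p - 2) = p by omega, add_pow_char, ← C_pow, ZMod.pow_card]

/-- iterated shift -/
theorem taylor_EM_nat {E : (ZMod p)[X]} (hE : IsE E) {m : ℕ} (hm : 1 ≤ m) (hmp : m < p) (n : ℕ) :
    taylor (n : ZMod p) (EM E m) = EM E m + ∑ j ∈ range n, taylor (j : ZMod p) (RM p m) := by
  induction n with
  | zero => simp
  | succ n ih =>
    have h2 : taylor ((n + 1 : ℕ) : ZMod p) (EM E m) = taylor (n : ZMod p) (taylor 1 (EM E m)) := by
      rw [taylor_taylor]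
      congr 1
      push_cast
      ring_nf
    rw [h2, taylor_EM hE hm hmp, map_add, ih, Finset.sum_range_succ, add_assoc]

theorem card_cop {m : ℕ} (hm : 1 ≤ m) : (cop m).card = m.totient := by
  rw [← Nat.filter_coprime_Ico_eq_totient m 1, cop]
  congr 1
  ext i
  simp only [Finset.mem_filter, Finset.mem_Icc, Finset.mem_Ico]
  rw [Nat.coprime_comm]
  constructor
  · rintro ⟨⟨h1, h2⟩, h3⟩
    exact ⟨⟨h1, by omega⟩, h3⟩
  · rintro ⟨⟨h1, h2⟩, h3⟩
    exact ⟨⟨h1, by omega⟩, h3⟩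

end MP_a3a416_nt.WW
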